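import Mathlib

/-! Row F1 (only Mathlib). Interpolation determinant bound.
Partial sums L^(K) i j = ∑_{k<K} Γ i k * Mm k j tend to L i j, and det is continuous, so it is enough (le_of_tendsto) to bound
det L^(K). Multilinearity of det in the ROWS (Matrix.detRowAlternating, `MultilinearMap.map_sum_finset` or `map_sum`,
then `map_smul_univ`): det L^(K) = ∑_{κ : Fin ρ → Fin K} (∏_i Γ i (κ i)) * det (fun i j => Mm (κ i) j).
If κ is not injective the determinant has two equal rows: 0 (Matrix.det_zero_of_row_eq). If κ is injective: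
|det| <= ρ! N^ρ (`Matrix.det_le` : for abs := IsAbsoluteValue.toAbsoluteValue, or expand det as a sum over permutations), and
∏ |Γ| <= C^ρ (s/2)^(∑ κ i) <= C^ρ s^(ρ(ρ-1)/2) (1/2)^(∑ κ i), because ∑ κ i >= ρ(ρ-1)/2 for injective κ (the image is a set of ρ
naturals; `Finset.sum_range_id_le_sum..`? or induct; e.g. `Finset.sum_range_id_mul_two`/`Finset.range_sum_le..`) and s <= 1.
Sum over ALL κ of ∏ (1/2)^(κ i) = (∑_{k<K} (1/2)^k)^ρ <= 2^ρ (Finset.prod_univ_sum / `Fintype.sum_pow`).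
-/

set_option autoImplicit false

namespace Pool.Agent.LibFD50

theorem F1_sum (S : Finset ℕ) : S.card * (S.card - 1) / 2 ≤ ∑ i ∈ S, i := by
  rw [← Finset.sum_range_id]
  induction S using Finset.induction_on_max with
  | empty => simp
  | insert a s h ih =>
    have h1 : a ∉ s := fun h2 => lt_irrefl a (h a h2)
    rw [Finset.card_insert_of_notMem h1, Finset.sum_range_succ, Finset.sum_insert h1, add_comm a]
    refine add_le_add ih ?_
    have h2 : s ⊆ Finset.range a := fun x hx => Finset.mem_range.2 (h x hx)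
    have h3 := Finset.card_le_card h2
    rwa [Finset.card_range] at h3

theorem F1_inj {ρ K : ℕ} (κ : Fin ρ → Fin K) (h : Function.Injective κ) :
    ρ * (ρ - 1) / 2 ≤ ∑ i, (κ i : ℕ) := by
  have hinj : Function.Injective (fun i => (κ i : ℕ)) := fun i j hij => h (Fin.ext hij)
  have h1 := F1_sum (Finset.univ.image (fun i => (κ i : ℕ)))
  rw [Finset.card_image_of_injective _ hinj, Finset.card_univ, Fintype.card_fin,
    Finset.sum_image (fun i _ j _ hij => hinj hij)] at h1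
  exact h1

theorem F1_geom (K : ℕ) : ∑ k : Fin K, (1 / 2 : ℝ) ^ (k : ℕ) ≤ 2 := by
  rw [Fin.sum_univ_eq_sum_range (fun k => (1 / 2 : ℝ) ^ k) K]
  have h1 := hasSum_geometric_two
  have h2 := h1.summable.sum_le_tsum (Finset.range K) (fun i _ => by positivity)
  rw [h1.tsum_eq] at h2
  exact h2

theorem det_bound {ρ : ℕ} (Γ : Fin ρ → ℕ → ℝ) (Mm : ℕ → Fin ρ → ℝ) (L : Matrix (Fin ρ) (Fin ρ) ℝ) {C N s : ℝ}
    (hC : 0 ≤ C) (hN : 0 ≤ N) (hs : 0 ≤ s) (hs1 : s ≤ 1) (hΓ : ∀ i k, |Γ i k| ≤ C * (s / 2) ^ k)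
    (hM : ∀ k j, |Mm k j| ≤ N) (hL : ∀ i j, HasSum (fun k => Γ i k * Mm k j) (L i j)) :
    |L.det| ≤ ρ.factorial * (2 * C * N) ^ ρ * s ^ (ρ * (ρ - 1) / 2) := by
  set LK : ℕ → Matrix (Fin ρ) (Fin ρ) ℝ :=
    fun K => Matrix.of fun i j => ∑ k ∈ Finset.range K, Γ i k * Mm k j with hLK
  have hlim : Filter.Tendsto LK Filter.atTop (nhds L) := by
    refine tendsto_pi_nhds.2 fun i => tendsto_pi_nhds.2 fun j => ?_
    exact (hL i j).tendsto_sum_nat
  have hdet : Filter.Tendsto (fun K => (LK K).det) Filter.atTop (nhds L.det) :=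
    ((continuous_id.matrix_det).tendsto L).comp hlim
  refine le_of_tendsto' hdet.abs fun K => ?_
  -- expansion
  have hexp : (LK K).det = ∑ κ : Fin ρ → Fin K, (∏ i, Γ i (κ i)) *
      Matrix.det (Matrix.of fun i j => Mm (κ i) j) := by
    have h1 : (LK K).det = (Matrix.detRowAlternating (n := Fin ρ) (R := ℝ)).toMultilinearMap
        (fun i => ∑ k : Fin K, Γ i k • (fun j => Mm k j)) := by
      change (LK K).det = Matrix.det (fun i => ∑ k : Fin K, Γ i k • (fun j => Mm k j))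
      congr 1
      ext i j
      simp only [hLK, Matrix.of_apply, Finset.sum_apply, Pi.smul_apply, smul_eq_mul]
      exact (Fin.sum_univ_eq_sum_range (fun k => Γ i k * Mm k j) K).symm
    rw [h1, MultilinearMap.map_sum]
    refine Finset.sum_congr rfl fun κ _ => ?_
    have h2 := MultilinearMap.map_smul_univ
      (Matrix.detRowAlternating (n := Fin ρ) (R := ℝ)).toMultilinearMap
      (fun i => Γ i (κ i)) (fun i => (fun j => Mm (κ i) j))
    rw [h2]
    rfl
  rw [hexp]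
  refine le_trans (Finset.abs_sum_le_sum_abs _ _) ?_
  set e := ρ * (ρ - 1) / 2 with he
  have hterm : ∀ κ : Fin ρ → Fin K, |(∏ i, Γ i (κ i)) *
      Matrix.det (Matrix.of fun i j => Mm (κ i) j)| ≤
        (C ^ ρ * s ^ e * (ρ.factorial * N ^ ρ)) * ∏ i, (1 / 2 : ℝ) ^ (κ i : ℕ) := by
    intro κ
    by_cases hinj : Function.Injective κ
    · rw [abs_mul]
      have h1 : |Matrix.det (Matrix.of fun i j => Mm (κ i) j)| ≤ ρ.factorial * N ^ ρ := by
        have := Matrix.det_le (A := Matrix.of fun i j => Mm (κ i) j)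
          (abv := (AbsoluteValue.abs : AbsoluteValue ℝ ℝ)) (x := N) (fun i j => hM (κ i) j)
        simpa using this
      have h2 : |∏ i, Γ i (κ i)| ≤ C ^ ρ * s ^ e * ∏ i, (1 / 2 : ℝ) ^ (κ i : ℕ) := by
        rw [Finset.abs_prod]
        have h3 : ∏ i, |Γ i (κ i)| ≤ ∏ i : Fin ρ, (C * (s / 2) ^ (κ i : ℕ)) :=
          Finset.prod_le_prod (fun i _ => abs_nonneg _) (fun i _ => hΓ i (κ i))
        refine le_trans h3 ?_
        have h4 : ∏ i : Fin ρ, (C * (s / 2) ^ (κ i : ℕ))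
            = C ^ ρ * s ^ (∑ i, (κ i : ℕ)) * ∏ i, (1 / 2 : ℝ) ^ (κ i : ℕ) := by
          rw [← Finset.prod_pow_eq_pow_sum, Finset.prod_mul_distrib, Finset.prod_const,
            Finset.card_univ, Fintype.card_fin, mul_assoc, ← Finset.prod_mul_distrib]
          congr 1
          refine Finset.prod_congr rfl fun i _ => ?_
          rw [← mul_pow]
          congr 1
          ring
        rw [h4]
        have h5 : s ^ (∑ i, (κ i : ℕ)) ≤ s ^ e := pow_le_pow_of_le_one hs hs1 (F1_inj κ hinj)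
        have h6 : 0 ≤ ∏ i, (1 / 2 : ℝ) ^ (κ i : ℕ) := Finset.prod_nonneg fun i _ => by positivity
        exact mul_le_mul_of_nonneg_right (mul_le_mul_of_nonneg_left h5 (pow_nonneg hC ρ)) h6
      have h7 : 0 ≤ C ^ ρ * s ^ e * ∏ i, (1 / 2 : ℝ) ^ (κ i : ℕ) :=
        le_trans (abs_nonneg _) h2
      calc |∏ i, Γ i (κ i)| * |Matrix.det (Matrix.of fun i j => Mm (κ i) j)|
          ≤ (C ^ ρ * s ^ e * ∏ i, (1 / 2 : ℝ) ^ (κ i : ℕ)) * (ρ.factorial * N ^ ρ) :=
            mul_le_mul h2 h1 (abs_nonneg _) h7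
        _ = _ := by ring
    · have h1 : Matrix.det (Matrix.of fun i j => Mm (κ i) j) = 0 := by
        have h2 : ∃ i j, κ i = κ j ∧ i ≠ j := by
          by_contra hcon
          push Not at hcon
          exact hinj fun i j hij => hcon i j hij
        obtain ⟨i, j, hij, hne⟩ := h2
        refine Matrix.det_zero_of_row_eq hne ?_
        ext l
        simp only [Matrix.of_apply, hij]
      rw [h1, mul_zero, abs_zero]
      have h6 : 0 ≤ ∏ i, (1 / 2 : ℝ) ^ (κ i : ℕ) := Finset.prod_nonneg fun i _ => by positivity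
      positivity
  refine le_trans (Finset.sum_le_sum fun κ _ => hterm κ) ?_
  rw [← Finset.mul_sum]
  have hsum : ∑ κ : Fin ρ → Fin K, ∏ i, (1 / 2 : ℝ) ^ (κ i : ℕ) ≤ 2 ^ ρ := by
    have h1 : ∑ κ : Fin ρ → Fin K, ∏ i, (1 / 2 : ℝ) ^ (κ i : ℕ)
        = ∏ _i : Fin ρ, ∑ k : Fin K, (1 / 2 : ℝ) ^ (k : ℕ) := by
      rw [Finset.prod_univ_sum, Fintype.piFinset_univ]
    rw [h1, Finset.prod_const, Finset.card_univ, Fintype.card_fin]
    exact pow_le_pow_left₀ (Finset.sum_nonneg fun i _ => by positivity) (F1_geom K) ρ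
  calc C ^ ρ * s ^ e * (ρ.factorial * N ^ ρ) * ∑ κ : Fin ρ → Fin K, ∏ i, (1 / 2 : ℝ) ^ (κ i : ℕ)
      ≤ C ^ ρ * s ^ e * (ρ.factorial * N ^ ρ) * 2 ^ ρ :=
        mul_le_mul_of_nonneg_left hsum (by positivity)
    _ = ρ.factorial * (2 * C * N) ^ ρ * s ^ e := by rw [mul_pow, mul_pow]; ring

end Pool.Agent.LibFD50
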