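import Mathlib
import Pool.Agent.LibCN21.Defs
import Pool.Agent.LibCN21.R04

/-! Row F2. Expansion of the kernel ph (2b) (2a+1), p = 2a+1 >= 2 μ + 1, c = (2a)!/(2 π (2b)!):
Γ k := c * (∫ t, t^(2b+k) * (cosh t)⁻¹ ^ (2a+1)) / k!.
BOUND: (cosh t)⁻¹ <= 2 e^(-|t|) (R04: r04_cosh, private there, copy it), |t|^(2b)/(2b)! <= e^|t| and (μ|t|)^k/k! <= e^(μ|t|)
(`Real.pow_div_factorial_le_exp`), so the integrand times c/k! is <= (2a)! 2^(2a+1)/(2π) * μ^(-k) * e^((1+μ-2a-1)|t|) and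
∫ e^(-(2a-μ)|t|) dt = 2/(2a-μ) <= 2/μ <= 1 (μ >= 2, a >= μ; integral_comp_abs as in r04_int); total (2a)! 4^a (2/π) (1/μ) μ^(-k)
<= (2a)! 4^a (1/μ)^k.
HasSum for |y| <= 1: ph (2b) (2a+1) y = ∫ e^(yt) t^(2b) sech^(2a+1), e^(yt) = ∑ (yt)^k/k!; exchange with
`MeasureTheory.hasSum_integral_of_summable_integral_norm` or `hasSum_integral_of_dominated_convergence` (bound k t :=
|t|^k/k! |t|^(2b) sech^(2a+1), its sum is e^|t| |t|^(2b) sech^(2a+1), integrable).
-/

set_option autoImplicit false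

namespace Pool.Agent.LibFD50

open Pool.Agent.LibOT77 Pool.Agent.LibCN21 Polynomial MeasureTheory Filter Topology

theorem F2_cosh (t : ℝ) : (Real.cosh t)⁻¹ ≤ 2 * Real.exp (-|t|) := by
  have h1 : Real.exp |t| / 2 ≤ Real.cosh t := by
    rw [← Real.cosh_abs t, Real.cosh_eq]
    have := Real.exp_pos (-|t|)
    linarith
  have h2 : (0 : ℝ) < Real.exp |t| / 2 := by positivity
  calc (Real.cosh t)⁻¹ ≤ (Real.exp |t| / 2)⁻¹ := inv_anti₀ h2 h1
    _ = 2 * Real.exp (-|t|) := by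
        rw [Real.exp_neg, inv_div, div_eq_mul_inv]

theorem F2_int {r : ℝ} (hr : 0 < r) : ∫ t : ℝ, Real.exp (-(r * |t|)) = 2 / r := by
  have h1 := integral_comp_abs (f := fun t : ℝ => Real.exp (-(r * t)))
  rw [h1]
  have h2 : ∫ t in Set.Ioi (0 : ℝ), Real.exp (-(r * t)) = 1 / r := by
    have h3 := integral_exp_mul_Ioi (a := -r) (by linarith) 0
    have h4 : ∫ t in Set.Ioi (0 : ℝ), Real.exp (-(r * t))
        = ∫ t in Set.Ioi (0 : ℝ), Real.exp (-r * t) := by
      refine setIntegral_congr_fun measurableSet_Ioi fun t _ => ?_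
      congr 1
      ring
    rw [h4, h3]
    rw [mul_zero, Real.exp_zero]
    field_simp
  rw [h2]
  ring

theorem F2_integrable {r : ℝ} (hr : 0 < r) : Integrable (fun t : ℝ => Real.exp (-(r * |t|))) := by
  apply Integrable.of_integral_ne_zero
  rw [F2_int hr]
  positivity

theorem F2_cont (j p : ℕ) : Continuous (kr j p) := by
  unfold kr
  refine (continuous_id.pow j).mul ((Continuous.inv₀ Real.continuous_cosh ?_).pow p)
  exact fun t => (Real.cosh_pos t).ne'

theorem F2_pt {a b μ : ℕ} (hμ : 2 ≤ μ) (k : ℕ) (t : ℝ) :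
    ‖t ^ k * kr (2 * b) (2 * a + 1) t‖ ≤
      (k.factorial * (2 * b).factorial * 2 ^ (2 * a + 1) * (1 / (μ : ℝ)) ^ k) *
        Real.exp (-((2 * a - μ : ℝ) * |t|)) := by
  have hμ0 : (0 : ℝ) < μ := by
    have : 0 < μ := by omega
    exact_mod_cast this
  have hc : 0 < (Real.cosh t)⁻¹ := inv_pos.2 (Real.cosh_pos t)
  have h0 : 0 ≤ |t| := abs_nonneg t
  have h1 : (Real.cosh t)⁻¹ ^ (2 * a + 1) ≤ 2 ^ (2 * a + 1) * Real.exp (-((2 * a + 1 : ℝ) * |t|)) := by
    have := pow_le_pow_left₀ hc.le (F2_cosh t) (2 * a + 1)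
    rw [mul_pow, ← Real.exp_nat_mul] at this
    have e : ((2 * a + 1 : ℕ) : ℝ) * -|t| = -((2 * a + 1 : ℝ) * |t|) := by push_cast; ring
    rwa [e] at this
  have h2 : |t| ^ (2 * b) ≤ (2 * b).factorial * Real.exp |t| := by
    have := Real.pow_div_factorial_le_exp |t| h0 (2 * b)
    rw [div_le_iff₀ (by positivity)] at this
    linarith
  have h3 : |t| ^ k ≤ k.factorial * (1 / (μ : ℝ)) ^ k * Real.exp (μ * |t|) := by
    have := Real.pow_div_factorial_le_exp (μ * |t|) (by positivity) k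
    rw [div_le_iff₀ (by positivity), mul_pow] at this
    have e : |t| ^ k = (1 / (μ : ℝ)) ^ k * ((μ : ℝ) ^ k * |t| ^ k) := by
      rw [← mul_assoc, ← mul_pow, one_div, inv_mul_cancel₀ hμ0.ne', one_pow, one_mul]
    rw [e]
    calc (1 / (μ : ℝ)) ^ k * ((μ : ℝ) ^ k * |t| ^ k)
        ≤ (1 / (μ : ℝ)) ^ k * (Real.exp (μ * |t|) * k.factorial) :=
          mul_le_mul_of_nonneg_left this (by positivity)
      _ = _ := by ring
  unfold kr
  rw [Real.norm_eq_abs, abs_mul, abs_mul, abs_pow, abs_pow, abs_pow, abs_of_pos hc]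
  have h4 : Real.exp (-((2 * a - μ : ℝ) * |t|))
      = Real.exp (μ * |t|) * Real.exp |t| * Real.exp (-((2 * a + 1 : ℝ) * |t|)) := by
    rw [← Real.exp_add, ← Real.exp_add]
    congr 1
    ring
  rw [h4]
  calc |t| ^ k * (|t| ^ (2 * b) * (Real.cosh t)⁻¹ ^ (2 * a + 1))
      ≤ (k.factorial * (1 / (μ : ℝ)) ^ k * Real.exp (μ * |t|)) *
        (((2 * b).factorial * Real.exp |t|) *
          (2 ^ (2 * a + 1) * Real.exp (-((2 * a + 1 : ℝ) * |t|)))) := by gcongr
    _ = _ := by ring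

theorem F2_r {a μ : ℕ} (hμ : 2 ≤ μ) (ha : μ ≤ a) : (2 : ℝ) ≤ 2 * a - μ := by
  have h1 : (μ : ℝ) ≤ a := by exact_mod_cast ha
  have h2 : (2 : ℝ) ≤ μ := by exact_mod_cast hμ
  linarith

theorem F2_I {a b μ : ℕ} (hμ : 2 ≤ μ) (ha : μ ≤ a) (k : ℕ) :
    Integrable (fun t : ℝ => t ^ k * kr (2 * b) (2 * a + 1) t) := by
  have hr := F2_r hμ ha
  refine Integrable.mono' ((F2_integrable (r := 2 * a - μ) (by linarith)).const_mul
    (k.factorial * (2 * b).factorial * 2 ^ (2 * a + 1) * (1 / (μ : ℝ)) ^ k)) ?_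
    (Filter.Eventually.of_forall fun t => F2_pt hμ k t)
  exact ((continuous_id.pow k).mul (F2_cont _ _)).aestronglyMeasurable

theorem F2_B {a b μ : ℕ} (hμ : 2 ≤ μ) (ha : μ ≤ a) (k : ℕ) :
    ∫ t : ℝ, ‖t ^ k * kr (2 * b) (2 * a + 1) t‖ ≤
      k.factorial * (2 * b).factorial * 2 ^ (2 * a + 1) * (1 / (μ : ℝ)) ^ k := by
  have hr := F2_r hμ ha
  have hr0 : (0 : ℝ) < 2 * a - μ := by linarith
  have h1 : ∫ t : ℝ, ‖t ^ k * kr (2 * b) (2 * a + 1) t‖ ≤
      ∫ t : ℝ, (k.factorial * (2 * b).factorial * 2 ^ (2 * a + 1) * (1 / (μ : ℝ)) ^ k) *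
        Real.exp (-((2 * a - μ : ℝ) * |t|)) :=
    integral_mono (F2_I hμ ha k).norm ((F2_integrable hr0).const_mul _) (fun t => F2_pt hμ k t)
  refine le_trans h1 ?_
  rw [integral_const_mul, F2_int hr0]
  have h2 : 2 / (2 * a - μ : ℝ) ≤ 1 := by
    rw [div_le_one hr0]; exact hr
  exact mul_le_of_le_one_right (by positivity) h2

theorem ph_expand {a b μ : ℕ} (hμ : 2 ≤ μ) (ha : μ ≤ a) : ∃ Γ : ℕ → ℝ,
    (∀ k, |Γ k| ≤ (2 * a).factorial * 4 ^ a * (1 / (μ : ℝ)) ^ k) ∧
    ∀ y : ℝ, |y| ≤ 1 → HasSum (fun k => Γ k * y ^ k)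
      ((2 * a).factorial / (2 * Real.pi * (2 * b).factorial) * ph (2 * b) (2 * a + 1) y) := by
  have hμ2 : (2 : ℝ) ≤ μ := by exact_mod_cast hμ
  have hμ0 : (0 : ℝ) < μ := by linarith
  set c : ℝ := (2 * a).factorial / (2 * Real.pi * (2 * b).factorial) with hc
  have hc0 : 0 < c := by positivity
  refine ⟨fun k => c * ((∫ t : ℝ, t ^ k * kr (2 * b) (2 * a + 1) t) / k.factorial), ?_, ?_⟩
  · intro k
    have h1 : |∫ t : ℝ, t ^ k * kr (2 * b) (2 * a + 1) t| ≤
        k.factorial * (2 * b).factorial * 2 ^ (2 * a + 1) * (1 / (μ : ℝ)) ^ k := by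
      rw [← Real.norm_eq_abs]
      exact le_trans (norm_integral_le_integral_norm _) (F2_B hμ ha k)
    rw [abs_mul, abs_of_pos hc0, abs_div, abs_of_pos (show (0 : ℝ) < k.factorial by positivity)]
    have h2 : |∫ t : ℝ, t ^ k * kr (2 * b) (2 * a + 1) t| / k.factorial ≤
        (2 * b).factorial * 2 ^ (2 * a + 1) * (1 / (μ : ℝ)) ^ k := by
      rw [div_le_iff₀ (by positivity)]
      linarith
    refine le_trans (mul_le_mul_of_nonneg_left h2 hc0.le) ?_
    have h3 : c * ((2 * b).factorial * 2 ^ (2 * a + 1) * (1 / (μ : ℝ)) ^ k)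
        = ((2 * a).factorial * 4 ^ a * (1 / (μ : ℝ)) ^ k) * (1 / Real.pi) := by
      rw [hc, pow_succ, pow_mul]
      have : (2 : ℝ) ^ 2 = 4 := by norm_num
      rw [this]
      have hpi := Real.pi_pos
      field_simp
    rw [h3]
    have h4 : 1 / Real.pi ≤ 1 := by
      rw [div_le_one Real.pi_pos]
      have := Real.pi_gt_three
      linarith
    exact mul_le_of_le_one_right (by positivity) h4
  · intro y hy
    have hF : ∀ k : ℕ, Integrable (fun t : ℝ => y ^ k / k.factorial *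
        (t ^ k * kr (2 * b) (2 * a + 1) t)) := fun k => (F2_I hμ ha k).const_mul _
    have hsum : Summable (fun k : ℕ => ∫ t : ℝ, ‖y ^ k / k.factorial *
        (t ^ k * kr (2 * b) (2 * a + 1) t)‖) := by
      have hg : Summable (fun k : ℕ => (2 * b).factorial * 2 ^ (2 * a + 1) * (1 / (μ : ℝ)) ^ k) := by
        apply Summable.mul_left
        apply summable_geometric_of_lt_one (by positivity)
        rw [div_lt_one hμ0]
        linarith
      refine Summable.of_nonneg_of_le (fun k => integral_nonneg fun t => norm_nonneg _)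
        (fun k => ?_) hg
      have h1 : ∫ t : ℝ, ‖y ^ k / k.factorial * (t ^ k * kr (2 * b) (2 * a + 1) t)‖
          = |y| ^ k / k.factorial * ∫ t : ℝ, ‖t ^ k * kr (2 * b) (2 * a + 1) t‖ := by
        rw [← integral_const_mul]
        congr 1
        funext t
        rw [norm_mul, norm_div, norm_pow, Real.norm_eq_abs y, Real.norm_natCast]
      rw [h1]
      have h2 : |y| ^ k ≤ 1 := pow_le_one₀ (abs_nonneg y) hy
      have h3 := F2_B (b := b) hμ ha k
      calc |y| ^ k / k.factorial * ∫ t : ℝ, ‖t ^ k * kr (2 * b) (2 * a + 1) t‖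
          ≤ 1 / k.factorial * (k.factorial * (2 * b).factorial * 2 ^ (2 * a + 1) *
              (1 / (μ : ℝ)) ^ k) := by
            refine mul_le_mul (by gcongr) h3 (integral_nonneg fun t => norm_nonneg _) (by positivity)
        _ = _ := by
            have : (k.factorial : ℝ) ≠ 0 := by positivity
            field_simp
    have hmain := hasSum_integral_of_summable_integral_norm hF hsum
    have htsum : ∀ t : ℝ, ∑' k : ℕ, y ^ k / k.factorial * (t ^ k * kr (2 * b) (2 * a + 1) t)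
        = Real.exp (y * t) * kr (2 * b) (2 * a + 1) t := by
      intro t
      have h1 : HasSum (fun k : ℕ => (y * t) ^ k / k.factorial) (Real.exp (y * t)) := by
        have := NormedSpace.expSeries_div_hasSum_exp (𝔸 := ℝ) (y * t)
        rwa [← Real.exp_eq_exp_ℝ] at this
      have h2 := h1.mul_right (kr (2 * b) (2 * a + 1) t)
      rw [← h2.tsum_eq]
      congr 1
      funext k
      rw [mul_pow]
      ring
    have h5 : ∫ t : ℝ, ∑' k : ℕ, y ^ k / k.factorial * (t ^ k * kr (2 * b) (2 * a + 1) t)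
        = ph (2 * b) (2 * a + 1) y := by
      unfold ph Lap
      congr 1
      funext t
      exact htsum t
    rw [h5] at hmain
    have h6 := hmain.mul_left c
    refine h6.congr_fun ?_
    intro k
    rw [integral_const_mul]
    ring

end Pool.Agent.LibFD50
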