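import Mathlib
import Pool.Agent.LibCN21.Defs
import Pool.Agent.LibFD50.F2

/-! Row F2i. Take Γ from ph_expand (F2). For continuous g: ∫ g * (c * ph) = ∫ ∑ Γ k (g y y^k), exchange with
`intervalIntegral.hasSum_integral_of_summable_norm` or `intervalIntegral.hasSum_integral_of_dominated_convergence`, bound k :=
(sup over [-1,1] of |g|) * C * (1/μ)^k (summable since μ >= 2); each term continuous.
-/

set_option autoImplicit false

namespace Pool.Agent.LibFD50

open Pool.Agent.LibOT77 Pool.Agent.LibCN21 Polynomial MeasureTheory Filter Topology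

theorem int_expand {a b μ : ℕ} (hμ : 2 ≤ μ) (ha : μ ≤ a) : ∃ Γ : ℕ → ℝ,
    (∀ k, |Γ k| ≤ (2 * a).factorial * 4 ^ a * (1 / (μ : ℝ)) ^ k) ∧
    ∀ g : ℝ → ℝ, Continuous g → HasSum (fun k => Γ k * ∫ y in (-1 : ℝ)..1, g y * y ^ k)
      ((2 * a).factorial / (2 * Real.pi * (2 * b).factorial) *
        ∫ y in (-1 : ℝ)..1, g y * ph (2 * b) (2 * a + 1) y) := by
  obtain ⟨Γ, hΓ, hs⟩ := ph_expand (b := b) hμ ha
  refine ⟨Γ, hΓ, fun g hg => ?_⟩
  obtain ⟨G, hG⟩ := (isCompact_Icc (a := (-1 : ℝ)) (b := 1)).exists_bound_of_continuousOn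
    hg.continuousOn
  set K : ℝ := (2 * a).factorial * 4 ^ a with hK
  set c : ℝ := (2 * a).factorial / (2 * Real.pi * (2 * b).factorial) with hc
  have hμ1 : (1 / (μ : ℝ)) < 1 := by
    rw [div_lt_one (by positivity)]
    exact_mod_cast hμ
  have hsum : Summable fun k : ℕ => G * (K * (1 / (μ : ℝ)) ^ k) :=
    ((summable_geometric_of_lt_one (by positivity) hμ1).mul_left K).mul_left G
  have hmem : ∀ y ∈ Set.uIoc (-1 : ℝ) 1, |y| ≤ 1 ∧ y ∈ Set.Icc (-1 : ℝ) 1 := by
    intro y hy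
    rw [Set.uIoc_of_le (by norm_num)] at hy
    exact ⟨abs_le.2 ⟨hy.1.le, hy.2⟩, hy.1.le, hy.2⟩
  have h1 := intervalIntegral.hasSum_integral_of_dominated_convergence (a := (-1 : ℝ)) (b := 1)
    (μ := volume) (F := fun k y => Γ k * (g y * y ^ k))
    (f := fun y => g y * (c * ph (2 * b) (2 * a + 1) y))
    (fun k _ => G * (K * (1 / (μ : ℝ)) ^ k))
    (fun k => (by fun_prop : Continuous fun y => Γ k * (g y * y ^ k)).aestronglyMeasurable)
    (fun k => Filter.Eventually.of_forall fun y hy => by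
      obtain ⟨hy1, hy2⟩ := hmem y hy
      have h2 : ‖g y‖ ≤ G := hG y hy2
      have h3 : |y ^ k| ≤ 1 := by
        rw [abs_pow]
        exact pow_le_one₀ (abs_nonneg y) hy1
      rw [norm_mul, norm_mul, Real.norm_eq_abs (Γ k), Real.norm_eq_abs (y ^ k)]
      have h4 := hΓ k
      have h5 : 0 ≤ G := (norm_nonneg _).trans h2
      calc |Γ k| * (‖g y‖ * |y ^ k|) ≤ (K * (1 / (μ : ℝ)) ^ k) * (G * 1) := by
            gcongr
        _ = G * (K * (1 / (μ : ℝ)) ^ k) := by ring)
    (Filter.Eventually.of_forall fun _ _ => hsum)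
    (intervalIntegrable_const)
    (Filter.Eventually.of_forall fun y hy => by
      have h2 := (hs y (hmem y hy).1).mul_left (g y)
      have h3 : (fun k => Γ k * (g y * y ^ k)) = fun k => g y * (Γ k * y ^ k) := by
        funext k
        ring
      rw [h3]
      exact h2)
  have h4 : (fun k => Γ k * ∫ y in (-1 : ℝ)..1, g y * y ^ k) =
      fun k => ∫ y in (-1 : ℝ)..1, Γ k * (g y * y ^ k) := by
    funext k
    rw [intervalIntegral.integral_const_mul]
  have h5 : c * ∫ y in (-1 : ℝ)..1, g y * ph (2 * b) (2 * a + 1) y =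
      ∫ y in (-1 : ℝ)..1, g y * (c * ph (2 * b) (2 * a + 1) y) := by
    rw [← intervalIntegral.integral_const_mul]
    congr 1
    funext y
    ring
  rw [h4, h5]
  exact h1

end Pool.Agent.LibFD50
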