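import Mathlib

/-! Row F3 (only Mathlib). A nonzero minor on a spanning set of small codimension.
T v := fun f => ∑ l, v l * L f l (= (Matrix.of L).mulVecLin v) has rank card φ (LinearIndependent.rank_matrix), so its restriction to
W = span ℝ S has rank >= card φ - c >= ρ (dim W <= rank + dim ker, dim ker T = card β - card φ; cf. LibCN21.R19).
So finrank (span (T '' S)) >= ρ; `Submodule.exists_fun_fin_finrank_span_eq` gives linearly independent T v_1,..,T v_ρ with v_j in S
(restrict to ρ of them). The φ × ρ matrix has independent columns, so rank ρ, so its rows span ℝ^ρ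
(Matrix.rank_transpose / rank_eq_finrank_span_row) and again `Submodule.exists_fun_fin_finrank_span_eq` gives ρ independent rows:
nonzero determinant (Matrix.linearIndependent_rows_iff_isUnit, or `Matrix.det_ne_zero..`).
-/

set_option autoImplicit false

namespace Pool.Agent.LibFD50

theorem exists_minor {φ β : Type*} [Fintype φ] [Fintype β] (L : φ → β → ℝ) (hL : LinearIndependent ℝ L)
    (S : Set (β → ℝ)) {c ρ : ℕ} (hS : Fintype.card β ≤ c + Module.finrank ℝ (Submodule.span ℝ S))
    (hρ : c + ρ ≤ Fintype.card φ) :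
    ∃ (i : Fin ρ → φ) (v : Fin ρ → β → ℝ), (∀ j, v j ∈ S) ∧
      (Matrix.of fun p j => ∑ l, v j l * L (i p) l).det ≠ 0 := by
  classical
  obtain ⟨A, hA⟩ : ∃ A : Matrix φ β ℝ, A = Matrix.of L := ⟨_, rfl⟩
  have hrank : A.rank = Fintype.card φ := by
    rw [Matrix.rank_eq_finrank_span_row, hA]
    exact finrank_span_eq_card hL
  obtain ⟨T, hT⟩ : ∃ T : (β → ℝ) →ₗ[ℝ] (φ → ℝ), T = A.mulVecLin := ⟨_, rfl⟩
  have hTv : ∀ v f, T v f = ∑ l, v l * L f l := by
    intro v f
    rw [hT, Matrix.mulVecLin_apply, Matrix.mulVec, dotProduct]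
    refine Finset.sum_congr rfl fun l _ => ?_
    rw [hA, Matrix.of_apply, mul_comm]
  have hTr : Module.finrank ℝ (LinearMap.range T) = Fintype.card φ := by
    rw [← hrank, hT]
    rfl
  have hTk := LinearMap.finrank_range_add_finrank_ker T
  rw [hTr, Module.finrank_fintype_fun_eq_card] at hTk
  obtain ⟨W, hW⟩ : ∃ W : Submodule ℝ (β → ℝ), W = Submodule.span ℝ S := ⟨_, rfl⟩
  rw [← hW] at hS
  have h1 := LinearMap.finrank_range_add_finrank_ker (T.domRestrict W)
  have h2 : Module.finrank ℝ (LinearMap.ker (T.domRestrict W)) ≤ Module.finrank ℝ (LinearMap.ker T) := by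
    have h3 : ∀ x : LinearMap.ker (T.domRestrict W), (W.subtype.comp (LinearMap.ker (T.domRestrict W)).subtype) x ∈
        LinearMap.ker T := by
      intro x
      have := x.2
      rw [LinearMap.mem_ker] at this ⊢
      exact this
    refine LinearMap.finrank_le_finrank_of_injective
      (f := (W.subtype.comp (LinearMap.ker (T.domRestrict W)).subtype).codRestrict (LinearMap.ker T) h3) ?_
    intro x y hxy
    have h4 := congrArg (fun z : LinearMap.ker T => (z : β → ℝ)) hxy
    exact Subtype.ext (Subtype.ext h4)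
  have h5 : LinearMap.range (T.domRestrict W) = Submodule.span ℝ (T '' S) := by
    rw [LinearMap.range_domRestrict, hW, Submodule.map_span]
  rw [h5] at h1
  have h6 : ρ ≤ Module.finrank ℝ (Submodule.span ℝ (T '' S)) := by omega
  obtain ⟨f, hf, -, hfi⟩ := Submodule.exists_fun_fin_finrank_span_eq ℝ (T '' S)
  have hg : ∀ j : Fin ρ, ∃ v ∈ S, T v = f (Fin.castLE h6 j) := fun j => hf _
  choose v hv hTvj using hg
  have hgi : LinearIndependent ℝ (fun j : Fin ρ => T (v j)) := by
    have h7 : (fun j : Fin ρ => T (v j)) = f ∘ (Fin.castLE h6) := by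
      funext j
      exact hTvj j
    rw [h7]
    exact hfi.comp _ (Fin.castLE_injective h6)
  obtain ⟨G, hG⟩ : ∃ G : Matrix φ (Fin ρ) ℝ, G = Matrix.of fun f j => T (v j) f := ⟨_, rfl⟩
  have hGr : G.rank = ρ := by
    rw [Matrix.rank_eq_finrank_span_cols]
    have h8 : G.col = fun j : Fin ρ => T (v j) := by
      funext j f
      rw [hG]
      rfl
    rw [h8, finrank_span_eq_card hgi, Fintype.card_fin]
  rw [Matrix.rank_eq_finrank_span_row] at hGr
  obtain ⟨r, hr, -, hri⟩ := Submodule.exists_fun_fin_finrank_span_eq ℝ (Set.range G.row)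
  have hi : ∀ p : Fin ρ, ∃ i : φ, G.row i = r (Fin.cast hGr.symm p) := fun p => hr _
  choose i hi using hi
  refine ⟨i, v, hv, ?_⟩
  have h9 : LinearIndependent ℝ (Matrix.of fun p j => ∑ l, v j l * L (i p) l).row := by
    have h10 : (Matrix.of fun p j => ∑ l, v j l * L (i p) l).row = r ∘ (Fin.cast hGr.symm) := by
      funext p
      rw [Function.comp_apply, ← hi p, hG]
      funext j
      exact (hTv (v j) (i p)).symm
    rw [h10]
    exact hri.comp _ (Fin.cast_injective _)
  rw [Matrix.linearIndependent_rows_iff_isUnit, Matrix.isUnit_iff_isUnit_det] at h9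
  exact h9.ne_zero

end Pool.Agent.LibFD50
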