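import Mathlib
import Pool.Agent.LibCN21.Defs
import Pool.Agent.LibCN21.R09
import Pool.Agent.LibCN21.R20
import Pool.Agent.LibCN21.R21

/-! Row F4. (1) as SU_coeff in LibCN21.R09 (its helper lemmas are private: copy them, n := 0).
(2) from R21_pt (n := 0): |at1 (RU q 0 M x) y| <= M H (1-y^2)^q <= M H for |y| <= 1, and |y^k| <= 1;
`intervalIntegral.norm_integral_le_of_norm_le_const`, length 2.
-/

set_option autoImplicit false

namespace Pool.Agent.LibFD50

open Pool.Agent.LibOT77 Pool.Agent.LibCN21 Polynomial MeasureTheory Filter Topology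

private theorem F4_deg_be (a : ℕ) : (be a).natDegree ≤ 2 * a := by
  unfold be
  refine (natDegree_prod_le _ _).trans ?_
  calc ∑ c ∈ Finset.range a, (C ((2 * (c : ℤ) + 1) ^ 2) - (X - 1) ^ 2 : ℤ[X]).natDegree ≤
      ∑ c ∈ Finset.range a, 2 := by
        refine Finset.sum_le_sum fun c _ => ?_
        refine (natDegree_sub_le _ _).trans ?_
        rw [natDegree_C]
        refine max_le (by norm_num) ?_
        refine (natDegree_pow_le).trans ?_
        have : (X - 1 : ℤ[X]).natDegree ≤ 1 := by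
          have : (X - 1 : ℤ[X]) = X - C 1 := by simp
          rw [this, natDegree_X_sub_C]
        omega
    _ = 2 * a := by simp [mul_comm]

private theorem F4_deg_RU (q n M : ℕ) (x : Fin M → ℤ) :
    (RU q n M x).natDegree ≤ 2 * q + 2 * M + 2 * n := by
  unfold RU
  refine natDegree_sum_le_of_forall_le _ _ fun l _ => ?_
  refine natDegree_C_mul_le _ _ |>.trans ?_
  refine natDegree_mul_le.trans ?_
  have h2 : (2 - X : ℤ[X]).natDegree ≤ 1 := by
    refine (natDegree_sub_le _ _).trans ?_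
    rw [natDegree_X]
    have : (2 : ℤ[X]) = C 2 := rfl
    rw [this, natDegree_C]
    norm_num
  have h1 : (1 - X : ℤ[X]).natDegree ≤ 1 := by
    refine (natDegree_sub_le _ _).trans ?_
    rw [natDegree_X, natDegree_one]
    norm_num
  have h3 : (X * (2 - X) : ℤ[X]).natDegree ≤ 2 := by
    refine natDegree_mul_le.trans ?_
    rw [natDegree_X]
    omega
  have h4 : ((X * (2 - X)) ^ (q + (l : ℕ)) : ℤ[X]).natDegree ≤ (q + l) * 2 :=
    natDegree_pow_le.trans (Nat.mul_le_mul_left _ h3)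
  have h5 : ((1 - X) ^ (2 * n) : ℤ[X]).natDegree ≤ 2 * n * 1 :=
    natDegree_pow_le.trans (Nat.mul_le_mul_left _ h1)
  have := l.2
  omega

private theorem F4_low (q n M : ℕ) (x : Fin M → ℤ) {j : ℕ} (hj : (RU q n M x).coeff j ≠ 0) :
    q ≤ j := by
  by_contra h
  push Not at h
  apply hj
  have hd : (X ^ q : ℤ[X]) ∣ RU q n M x := by
    unfold RU
    refine Finset.dvd_sum fun l _ => ?_
    refine Dvd.dvd.mul_left ?_ _
    refine Dvd.dvd.mul_right ?_ _
    rw [mul_pow]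
    exact (pow_dvd_pow X (Nat.le_add_right q l)).mul_right _
  exact (X_pow_dvd_iff.1 hd) j h

private theorem F4_coeff {q n M : ℕ} (x : Fin M → ℤ) {a b κ : ℕ}
    (h : (SU q n M x a b).coeff κ ≠ 0) :
    ∃ i j : ℕ, i + j = κ ∧ i ≤ 2 * a ∧ (RU q n M x).coeff (j + 2 * b) ≠ 0 := by
  unfold SU at h
  rw [coeff_mul] at h
  obtain ⟨⟨i, j⟩, hij, hne⟩ := Finset.exists_ne_zero_of_sum_ne_zero h
  rw [Finset.HasAntidiagonal.mem_antidiagonal] at hij
  have h1 : (be a).coeff i ≠ 0 := left_ne_zero_of_mul hne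
  have h2 : (hasseDeriv (2 * b) (RU q n M x)).coeff j ≠ 0 := right_ne_zero_of_mul hne
  refine ⟨i, j, hij, (le_natDegree_of_ne_zero h1).trans (F4_deg_be a), ?_⟩
  rw [hasseDeriv_coeff] at h2
  exact right_ne_zero_of_mul h2

theorem SU_coeff' {q M : ℕ} (x : Fin M → ℤ) {a b m : ℕ} (ha : a ≤ m) (hb : b ≤ m) {κ : ℕ}
    (h : (SU q 0 M x a b).coeff κ ≠ 0) : q ≤ κ + 2 * m ∧ κ ≤ 2 * q + 2 * M + 2 * m := by
  obtain ⟨i, j, hij, hi, hj⟩ := F4_coeff x h
  have h1 := F4_low q 0 M x hj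
  have h2 := (le_natDegree_of_ne_zero hj).trans (F4_deg_RU q 0 M x)
  omega

theorem at1_cont (q M : ℕ) (x : Fin M → ℤ) : Continuous (at1 (RU q 0 M x)) := by
  unfold at1
  exact (Polynomial.continuous _).comp (continuous_const.add continuous_id)

theorem mom_bound {q M : ℕ} (x : Fin M → ℤ) {H : ℝ} (hH : 0 ≤ H) (hx : ∀ l, |(x l : ℝ)| ≤ H) (k : ℕ) :
    |∫ y in (-1 : ℝ)..1, at1 (RU q 0 M x) y * y ^ k| ≤ 2 * M * H := by
  have h1 : ∀ y ∈ Set.uIoc (-1 : ℝ) 1, ‖at1 (RU q 0 M x) y * y ^ k‖ ≤ M * H := by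
    intro y hy
    rw [Set.uIoc_of_le (by norm_num)] at hy
    have hy' : |y| ≤ 1 := abs_le.2 ⟨hy.1.le, hy.2⟩
    have hy2 : y ^ 2 ≤ 1 := (sq_le_one_iff_abs_le_one y).2 hy'
    have h2 := R21_pt (q := q) (n := 0) x hx hy'
    rw [pow_zero, mul_one] at h2
    have h3 : (1 - y ^ 2) ^ q ≤ 1 := pow_le_one₀ (by linarith) (by nlinarith [sq_nonneg y])
    have h4 : 0 ≤ (M : ℝ) * H := by positivity
    have h5 : |at1 (RU q 0 M x) y| ≤ M * H := h2.trans (mul_le_of_le_one_right h4 h3)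
    rw [norm_mul, norm_pow, Real.norm_eq_abs, Real.norm_eq_abs]
    exact (mul_le_mul h5 (pow_le_one₀ (abs_nonneg y) hy') (by positivity) h4).trans_eq (mul_one _)
  have h2 := intervalIntegral.norm_integral_le_of_norm_le_const h1
  rw [Real.norm_eq_abs] at h2
  refine h2.trans_eq ?_
  norm_num
  ring

end Pool.Agent.LibFD50
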