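import Mathlib

/-! Row F5 (only Mathlib). Numerics. Take μ = ⌊sqrt(ε n/48)⌋₊; mu ~ sqrt(ε n/48) → ∞.
(a) 32 μ^2 + 12 μ <= (2/3) ε n + 12 sqrt(ε n/48) <= ε n for large n.
(b) 8 μ <= 8 sqrt(ε n/48) = 1.1547.. sqrt(ε n) <= 1.16 sqrt(ε n); 4 * 1.16 ε n/400 = 0.0116 ε n <= μ^2 ~ 0.0208 ε n.
(c) with m = 2μ-1, M = 16 μ^2, q = n+2m:  E := 2 μ^2 * ((2m)! 4^m) * (2 M (M 3^(q+M))^(1/3)) satisfies log E <= K n
(K = K(ε); (2m)! <= (4μ)^(4μ), μ <= sqrt(ε n)), D <= n^(ε n/400), and (μ/2)^(μ^2-1) with μ/2 >= n^(0.48) (large n),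
μ^2 - 1 >= 0.9 ε n/48: 0.9*0.48/48 = 0.009 > 2/400 = 0.005.
-/

set_option autoImplicit false

namespace Pool.Agent.LibFD50

open Filter

theorem F5_self (x : ℝ) : x ≤ Real.exp x := by linarith [Real.add_one_le_exp x]

theorem F5_two : (2 : ℝ) ≤ Real.exp 1 := by linarith [Real.add_one_le_exp (1 : ℝ)]

theorem F5_four : (4 : ℝ) ≤ Real.exp 2 := by
  have h : Real.exp 2 = Real.exp 1 * Real.exp 1 := by rw [← Real.exp_add]; norm_num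
  rw [h]
  nlinarith [F5_two]

theorem F5_F (κ : ℝ) (n μ D : ℕ) (T : ℝ) (hμ1 : 1 ≤ μ) (hn : 1 ≤ n) (hμ : (μ : ℝ) ^ 2 ≤ κ * n)
    (hD : (D : ℝ) ≤ Real.exp T) :
    (μ : ℝ) ^ 2 * D * (2 * ((2 * (2 * μ - 1)).factorial * 4 ^ (2 * μ - 1)) *
      (2 * ((16 * μ ^ 2 : ℕ) : ℝ) * (((16 * μ ^ 2 : ℕ) : ℝ) *
        3 ^ (n + 2 * (2 * μ - 1) + 16 * μ ^ 2)) ^ (1 / 3 : ℝ))) ≤
      Real.exp (T + (109 * κ + 3) * n) := by
  have hμR : (1 : ℝ) ≤ μ := by exact_mod_cast hμ1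
  have hnR : (1 : ℝ) ≤ n := by exact_mod_cast hn
  have hμμ : (μ : ℝ) ≤ (μ : ℝ) ^ 2 := by nlinarith
  have b1 : (μ : ℝ) ^ 2 ≤ Real.exp (κ * n) := hμ.trans (F5_self _)
  have b2 : (((2 * (2 * μ - 1)).factorial : ℕ) : ℝ) ≤ Real.exp (16 * (κ * n)) := by
    have h1 : (2 * (2 * μ - 1)).factorial ≤ (4 * μ) ^ (4 * μ) :=
      (Nat.factorial_le (by omega)).trans (Nat.factorial_le_pow (4 * μ))
    have h2 : (((2 * (2 * μ - 1)).factorial : ℕ) : ℝ) ≤ ((4 * μ : ℕ) : ℝ) ^ (4 * μ) := by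
      exact_mod_cast h1
    have h3 : ((4 * μ : ℕ) : ℝ) ≤ Real.exp ((4 * μ : ℕ) : ℝ) := F5_self _
    have h4 : ((4 * μ : ℕ) : ℝ) ^ (4 * μ) ≤ Real.exp ((4 * μ : ℕ) : ℝ) ^ (4 * μ) :=
      pow_le_pow_left₀ (Nat.cast_nonneg _) h3 _
    refine (h2.trans h4).trans ?_
    rw [← Real.exp_nat_mul]
    apply Real.exp_le_exp.2
    push_cast
    nlinarith
  have b3 : (4 : ℝ) ^ (2 * μ - 1) ≤ Real.exp (4 * (κ * n)) := by
    have h1 : (4 : ℝ) ^ (2 * μ - 1) ≤ 4 ^ (2 * μ) :=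
      pow_le_pow_right₀ (by norm_num) (by omega)
    have h2 : (4 : ℝ) ^ (2 * μ) ≤ Real.exp 2 ^ (2 * μ) :=
      pow_le_pow_left₀ (by norm_num) F5_four _
    refine (h1.trans h2).trans ?_
    rw [← Real.exp_nat_mul]
    apply Real.exp_le_exp.2
    push_cast
    nlinarith
  have hM : ((16 * μ ^ 2 : ℕ) : ℝ) = 16 * (μ : ℝ) ^ 2 := by push_cast; ring
  have hM1 : (1 : ℝ) ≤ ((16 * μ ^ 2 : ℕ) : ℝ) := by rw [hM]; nlinarith
  have b4 : 2 * ((16 * μ ^ 2 : ℕ) : ℝ) ≤ Real.exp (32 * (κ * n)) := by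
    rw [hM]
    refine le_trans ?_ (F5_self _)
    linarith
  have b5 : ((16 * μ ^ 2 : ℕ) : ℝ) ≤ Real.exp (16 * (κ * n)) := by
    rw [hM]
    refine le_trans ?_ (F5_self _)
    linarith
  have b6 : (3 : ℝ) ^ (n + 2 * (2 * μ - 1) + 16 * μ ^ 2) ≤ Real.exp (2 * n + 40 * (κ * n)) := by
    have h1 : (3 : ℝ) ^ (n + 2 * (2 * μ - 1) + 16 * μ ^ 2) ≤ 3 ^ (n + 4 * μ + 16 * μ ^ 2) :=
      pow_le_pow_right₀ (by norm_num) (by omega)
    have h2 : (3 : ℝ) ^ (n + 4 * μ + 16 * μ ^ 2) ≤ Real.exp 2 ^ (n + 4 * μ + 16 * μ ^ 2) :=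
      pow_le_pow_left₀ (by norm_num) (by linarith [F5_four]) _
    refine (h1.trans h2).trans ?_
    rw [← Real.exp_nat_mul]
    apply Real.exp_le_exp.2
    push_cast
    nlinarith
  have b7 : (((16 * μ ^ 2 : ℕ) : ℝ) * 3 ^ (n + 2 * (2 * μ - 1) + 16 * μ ^ 2)) ^ (1 / 3 : ℝ) ≤
      Real.exp (16 * (κ * n)) * Real.exp (2 * n + 40 * (κ * n)) := by
    have h0 : (1 : ℝ) ≤ ((16 * μ ^ 2 : ℕ) : ℝ) * 3 ^ (n + 2 * (2 * μ - 1) + 16 * μ ^ 2) := by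
      have : (1 : ℝ) ≤ 3 ^ (n + 2 * (2 * μ - 1) + 16 * μ ^ 2) := one_le_pow₀ (by norm_num)
      nlinarith
    calc (((16 * μ ^ 2 : ℕ) : ℝ) * 3 ^ (n + 2 * (2 * μ - 1) + 16 * μ ^ 2)) ^ (1 / 3 : ℝ)
        ≤ (((16 * μ ^ 2 : ℕ) : ℝ) * 3 ^ (n + 2 * (2 * μ - 1) + 16 * μ ^ 2)) ^ (1 : ℝ) :=
          Real.rpow_le_rpow_of_exponent_le h0 (by norm_num)
      _ = ((16 * μ ^ 2 : ℕ) : ℝ) * 3 ^ (n + 2 * (2 * μ - 1) + 16 * μ ^ 2) := Real.rpow_one _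
      _ ≤ _ := mul_le_mul b5 b6 (by positivity) (Real.exp_pos _).le
  have e : Real.exp (κ * n) * Real.exp T * (Real.exp 1 * (Real.exp (16 * (κ * n)) *
      Real.exp (4 * (κ * n))) * (Real.exp (32 * (κ * n)) * (Real.exp (16 * (κ * n)) *
        Real.exp (2 * n + 40 * (κ * n))))) ≤ Real.exp (T + (109 * κ + 3) * n) := by
    simp only [← Real.exp_add]
    apply Real.exp_le_exp.2
    nlinarith
  refine le_trans ?_ e
  have p1 : 0 ≤ (((16 * μ ^ 2 : ℕ) : ℝ) * 3 ^ (n + 2 * (2 * μ - 1) + 16 * μ ^ 2)) ^ (1 / 3 : ℝ) := by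
    positivity
  refine mul_le_mul (mul_le_mul b1 hD (Nat.cast_nonneg _) (Real.exp_pos _).le) ?_ (by positivity)
    (by positivity)
  refine mul_le_mul (mul_le_mul F5_two (mul_le_mul b2 b3 (by positivity) (Real.exp_pos _).le)
    (by positivity) (Real.exp_pos _).le) ?_ (by positivity) (by positivity)
  exact mul_le_mul b4 b7 p1 (Real.exp_pos _).le

theorem numerics (ε : ℝ) (hε : 0 < ε) : ∃ N₀ : ℕ, ∀ n : ℕ, N₀ ≤ n → ∃ μ : ℕ, 4 ≤ μ ∧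
    (32 * (μ : ℝ) ^ 2 + 12 * μ ≤ ε * n) ∧ (8 * (μ : ℝ) ≤ 1.16 * Real.sqrt (ε * n)) ∧
    (4 * (1.16 * (ε * n / 400)) ≤ (μ : ℝ) ^ 2) ∧
    ∀ D : ℕ, (D : ℝ) ≤ (n : ℝ) ^ (ε * n / 400) →
      ((μ : ℝ) ^ 2 * D * (2 * ((2 * (2 * μ - 1)).factorial * 4 ^ (2 * μ - 1)) * (2 * ((16 * μ ^ 2 : ℕ) : ℝ) *
        (((16 * μ ^ 2 : ℕ) : ℝ) * 3 ^ (n + 2 * (2 * μ - 1) + 16 * μ ^ 2)) ^ (1 / 3 : ℝ)))) ^ 2 *
        (2 / (μ : ℝ)) ^ (μ ^ 2 - 1) < 1 := by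
  obtain ⟨κ, hκ⟩ : ∃ κ : ℝ, κ = ε / 48 := ⟨_, rfl⟩
  have hκ0 : 0 < κ := by rw [hκ]; positivity
  have hε48 : ε = 48 * κ := by rw [hκ]; ring
  obtain ⟨c₀, hc₀⟩ : ∃ c₀ : ℝ, c₀ = Real.log κ / 2 - 2 := ⟨_, rfl⟩
  obtain ⟨K, hK⟩ : ∃ K : ℝ, K = 109 * κ + 3 := ⟨_, rfl⟩
  have t1 : Tendsto (fun n : ℕ => Real.sqrt (κ * (n : ℝ))) atTop atTop :=
    Real.tendsto_sqrt_atTop.comp (tendsto_natCast_atTop_atTop.const_mul_atTop hκ0)
  have t2 : Tendsto (fun n : ℕ => 0.004 * ε * Real.log (n : ℝ)) atTop atTop :=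
    (Real.tendsto_log_atTop.comp tendsto_natCast_atTop_atTop).const_mul_atTop (by positivity)
  obtain ⟨N, hN⟩ := eventually_atTop.1 ((t1.eventually_ge_atTop 20).and
    ((t2.eventually_ge_atTop (2 * K - 0.9 * κ * c₀ + 1)).and (eventually_ge_atTop 1)))
  refine ⟨N, fun n hn => ?_⟩
  obtain ⟨h1, h2, h3⟩ := hN n hn
  have hnR : (1 : ℝ) ≤ n := by exact_mod_cast h3
  have hn0 : (0 : ℝ) < n := by linarith
  obtain ⟨s, hs⟩ : ∃ s : ℝ, s = Real.sqrt (κ * (n : ℝ)) := ⟨_, rfl⟩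
  rw [← hs] at h1
  have hs2 : s ^ 2 = κ * n := by rw [hs]; exact Real.sq_sqrt (by positivity)
  obtain ⟨μ, hμ⟩ : ∃ μ : ℕ, μ = ⌊s⌋₊ := ⟨_, rfl⟩
  have hμ1 : (μ : ℝ) ≤ s := by rw [hμ]; exact Nat.floor_le (by linarith)
  have hμ2 : s - 1 < μ := by rw [hμ]; exact Nat.sub_one_lt_floor s
  have hμ19 : (19 : ℝ) < μ := by linarith
  have hμ19' : 19 < μ := by exact_mod_cast hμ19
  have hμs : (μ : ℝ) ^ 2 ≤ s ^ 2 := pow_le_pow_left₀ (by linarith) hμ1 2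
  have hμl : 0.9 * s ^ 2 ≤ (μ : ℝ) ^ 2 - 1 := by nlinarith
  have hL0 : 0 ≤ Real.log (n : ℝ) := Real.log_nonneg hnR
  refine ⟨μ, by omega, ?_, ?_, ?_, ?_⟩
  · rw [hε48, mul_assoc, ← hs2]
    nlinarith
  · have h4 : 8 / 1.16 * (μ : ℝ) ≤ Real.sqrt (ε * n) := by
      apply Real.le_sqrt_of_sq_le
      rw [hε48, mul_assoc, ← hs2]
      nlinarith
    have h5 : 8 * (μ : ℝ) = 1.16 * (8 / 1.16 * (μ : ℝ)) := by ring
    rw [h5]
    exact mul_le_mul_of_nonneg_left h4 (by norm_num)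
  · rw [hε48, mul_assoc 48, ← hs2]
    nlinarith
  · intro D hD
    rw [Real.rpow_def_of_pos hn0] at hD
    have hF := F5_F κ n μ D _ (by omega) h3 (by rw [← hs2]; exact hμs) hD
    rw [← hK] at hF
    have hlog : Real.log (n : ℝ) / 2 + c₀ ≤ Real.log ((μ : ℝ) / 2) := by
      have h4 : Real.log (s / 4) ≤ Real.log ((μ : ℝ) / 2) :=
        Real.log_le_log (by linarith) (by linarith)
      have h5 : Real.log (s / 4) = Real.log s - Real.log 4 :=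
        Real.log_div (by linarith) (by norm_num)
      have h6 : 2 * Real.log s = Real.log κ + Real.log n := by
        have : Real.log (s ^ 2) = Real.log (κ * n) := by rw [hs2]
        rw [Real.log_pow, Real.log_mul hκ0.ne' hn0.ne'] at this
        exact_mod_cast this
      have h7 : Real.log 4 ≤ 2 := by
        have := Real.log_le_log (by norm_num : (0 : ℝ) < 4) F5_four
        rwa [Real.log_exp] at this
      linarith
    have hlog0 : 0 ≤ Real.log ((μ : ℝ) / 2) := Real.log_nonneg (by linarith)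
    have e1 : (2 / (μ : ℝ)) ^ (μ ^ 2 - 1) = Real.exp (-(((μ : ℝ) ^ 2 - 1) * Real.log ((μ : ℝ) / 2))) := by
      have h4 : (2 / (μ : ℝ)) = Real.exp (-Real.log ((μ : ℝ) / 2)) := by
        rw [Real.exp_neg, Real.exp_log (by linarith), inv_div]
      rw [h4, ← Real.exp_nat_mul]
      congr 1
      have h5 : ((μ ^ 2 - 1 : ℕ) : ℝ) = (μ : ℝ) ^ 2 - 1 := by
        rw [Nat.cast_sub (Nat.one_le_pow _ _ (by omega))]
        push_cast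
        ring
      rw [h5]
      ring
    rw [e1]
    have h8 : 0.9 * (κ * n) * (Real.log (n : ℝ) / 2 + c₀) ≤
        ((μ : ℝ) ^ 2 - 1) * Real.log ((μ : ℝ) / 2) := by
      rw [hs2] at hμl
      calc 0.9 * (κ * n) * (Real.log (n : ℝ) / 2 + c₀) ≤ 0.9 * (κ * n) * Real.log ((μ : ℝ) / 2) :=
            mul_le_mul_of_nonneg_left hlog (by positivity)
        _ ≤ ((μ : ℝ) ^ 2 - 1) * Real.log ((μ : ℝ) / 2) := mul_le_mul_of_nonneg_right hμl hlog0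
    have hF2 := pow_le_pow_left₀ (by positivity) hF 2
    have e2 : Real.exp (Real.log (n : ℝ) * (ε * n / 400) + K * n) ^ 2 =
        Real.exp (2 * (Real.log (n : ℝ) * (ε * n / 400) + K * n)) := by
      rw [← Real.exp_nat_mul]
      norm_num
    rw [e2] at hF2
    have key : 2 * (Real.log (n : ℝ) * (ε * n / 400) + K * n) +
        -(((μ : ℝ) ^ 2 - 1) * Real.log ((μ : ℝ) / 2)) < 0 := by
      have h9 : 2 * (Real.log (n : ℝ) * (ε * n / 400) + K * n) -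
          0.9 * (κ * n) * (Real.log (n : ℝ) / 2 + c₀) =
          n * (2 * K - 0.9 * κ * c₀ - 0.004375 * ε * Real.log n) := by
        rw [hε48]
        ring
      have h10 : 2 * K - 0.9 * κ * c₀ - 0.004375 * ε * Real.log n < 0 := by
        have : 0 ≤ ε * Real.log n := by positivity
        nlinarith
      have h11 : n * (2 * K - 0.9 * κ * c₀ - 0.004375 * ε * Real.log n) < 0 :=
        mul_neg_of_pos_of_neg hn0 h10
      linarith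
    calc _ ≤ Real.exp (2 * (Real.log (n : ℝ) * (ε * n / 400) + K * n)) *
          Real.exp (-(((μ : ℝ) ^ 2 - 1) * Real.log ((μ : ℝ) / 2))) :=
          mul_le_mul_of_nonneg_right hF2 (Real.exp_pos _).le
      _ = Real.exp (2 * (Real.log (n : ℝ) * (ε * n / 400) + K * n) +
          -(((μ : ℝ) ^ 2 - 1) * Real.log ((μ : ℝ) / 2))) := (Real.exp_add _ _).symm
      _ < 1 := by
          have h12 := Real.exp_lt_exp.2 key
          rwa [Real.exp_zero] at h12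

end Pool.Agent.LibFD50
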