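import Mathlib
import Pool.Agent.LibCN21.Defs
import Pool.Agent.LibCN21.R09
import Pool.Agent.LibCN21.R10
import Pool.Agent.LibCN21.R17
import Pool.Agent.LibCN21.R18
import Pool.Agent.LibCN21.R20
import Pool.Agent.LibCN21.R23c
import Pool.Agent.LibFD50.F1
import Pool.Agent.LibFD50.F2i
import Pool.Agent.LibFD50.F3
import Pool.Agent.LibFD50.F4
import Pool.Agent.LibFD50.F5

set_option autoImplicit false

namespace Pool.Agent.LibFD50

open Pool.Agent.LibOT77 Pool.Agent.LibCN21 Polynomial MeasureTheory Filter Topology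

theorem forms_indep_aux {q M μ m : ℕ} (hm : m + 1 = 2 * μ) (hq : 2 * m + 1 ≤ q) (hM : (2 * m + 1) ^ 2 ≤ M) :
    LinearIndependent ℝ (fun (f : Fin μ × Fin (2 * μ)) (l : Fin M) =>
      ∫ y in (-1 : ℝ)..1, ((1 - y ^ 2) ^ (q + (l : ℕ)) * y ^ (2 * 0)) * ph (2 * (f.2 : ℕ)) (2 * (μ + (f.1 : ℕ)) + 1) y) := by
  have h := rows_indep (q := q) (n := 0) (M := M) (m := m) hq hM
  set e : Fin μ × Fin (2 * μ) → Fin (m + 1) × Fin (m + 1) := fun f =>
      (⟨μ + (f.1 : ℕ), by have := f.1.2; omega⟩, ⟨(f.2 : ℕ), by have := f.2.2; omega⟩) with he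
  have hinj : Function.Injective e := by
    rintro ⟨a, b⟩ ⟨a', b'⟩ hab
    rw [he] at hab
    simp only [Prod.mk.injEq, Fin.mk.injEq] at hab
    ext
    · simp only
      omega
    · simp only
      omega
  exact h.comp e hinj

/-- forms `(a,b)`, `μ ≤ a < 2 μ`, `b < 2 μ` are independent -/
theorem forms_indep {q M μ : ℕ} (hμ : 1 ≤ μ) (hq : 4 * μ ≤ q) (hM : (4 * μ) ^ 2 ≤ M) :
    LinearIndependent ℝ (fun (f : Fin μ × Fin (2 * μ)) (l : Fin M) =>
      ∫ y in (-1 : ℝ)..1, ((1 - y ^ 2) ^ (q + (l : ℕ)) * y ^ (2 * 0)) * ph (2 * (f.2 : ℕ)) (2 * (μ + (f.1 : ℕ)) + 1) y) := by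
  obtain ⟨m, hm⟩ : ∃ m, m + 1 = 2 * μ := ⟨2 * μ - 1, by omega⟩
  exact forms_indep_aux hm (by omega) ((Nat.pow_le_pow_left (by omega) 2).trans hM)

theorem sum_form {q M : ℕ} (x : Fin M → ℤ) (a b : ℕ) (hq : 2 * b + 1 ≤ q) :
    ∑ l, (x l : ℝ) * (∫ y in (-1 : ℝ)..1, ((1 - y ^ 2) ^ (q + (l : ℕ)) * y ^ (2 * 0)) * ph (2 * b) (2 * a + 1) y) =
      ∫ y in (-1 : ℝ)..1, at1 (RU q 0 M x) y * ph (2 * b) (2 * a + 1) y := by
  have hsum : ∀ y : ℝ, at1 (RU q 0 M x) y * ph (2 * b) (2 * a + 1) y =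
      ∑ l, (x l : ℝ) * (((1 - y ^ 2) ^ (q + (l : ℕ)) * y ^ (2 * 0)) * ph (2 * b) (2 * a + 1) y) := by
    intro y
    rw [at1_RU, Finset.sum_mul]
    exact Finset.sum_congr rfl fun l _ => by ring
  simp only [hsum]
  rw [intervalIntegral.integral_finsetSum]
  · exact Finset.sum_congr rfl fun l _ => (intervalIntegral.integral_const_mul _ _).symm
  · intro l _
    apply IntervalIntegrable.const_mul
    have h1 := int_ph (((X * (2 - X)) ^ (q + (l : ℕ)) * (1 - X) ^ (2 * 0) : ℝ[X])) (2 * b) (2 * a + 1)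
      (by omega) (Dvd.dvd.mul_right (pow_dvd_pow _ (by omega)) _)
    refine h1.congr ?_
    intro y _
    simp only [eval_mul, eval_pow, eval_sub, eval_X, eval_ofNat, eval_one]
    congr 1
    congr 1
    · congr 1
      ring

theorem combine_lem {D K x Δ : ℝ} {ρ : ℕ} (hρ : 0 < ρ) (hD : 0 ≤ D) (hK : 0 ≤ K) (hx : 0 ≤ x)
    (hup : |Δ| ≤ ρ.factorial * K ^ ρ * x ^ (ρ * (ρ - 1) / 2))
    (hnum : ((ρ : ℝ) * D * K) ^ 2 * x ^ (ρ - 1) < 1) : D ^ ρ * |Δ| < 1 := by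
  have h1 : D ^ ρ * |Δ| ≤ ((ρ : ℝ) * D * K) ^ ρ * x ^ (ρ * (ρ - 1) / 2) := by
    have hf : (ρ.factorial : ℝ) ≤ (ρ : ℝ) ^ ρ := by
      exact_mod_cast Nat.factorial_le_pow ρ
    calc D ^ ρ * |Δ| ≤ D ^ ρ * (ρ.factorial * K ^ ρ * x ^ (ρ * (ρ - 1) / 2)) := by gcongr
      _ ≤ D ^ ρ * ((ρ : ℝ) ^ ρ * K ^ ρ * x ^ (ρ * (ρ - 1) / 2)) := by gcongr
      _ = _ := by
          rw [mul_pow, mul_pow]
          ring
  refine lt_of_le_of_lt h1 ?_
  generalize (ρ : ℝ) * D * K = P at hnum ⊢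
  have h2 : (P ^ ρ * x ^ (ρ * (ρ - 1) / 2)) ^ 2 = (P ^ 2 * x ^ (ρ - 1)) ^ ρ := by
    have h3 : ρ * (ρ - 1) / 2 * 2 = ρ * (ρ - 1) := Nat.div_mul_cancel (Nat.even_mul_pred_self _).two_dvd
    rw [mul_pow, mul_pow, ← pow_mul x, h3, ← pow_mul, ← pow_mul, ← pow_mul, mul_comm ρ 2, mul_comm ρ (ρ - 1)]
  have h4 : (P ^ 2 * x ^ (ρ - 1)) ^ ρ < 1 := by
    apply pow_lt_one₀ (mul_nonneg (sq_nonneg P) (pow_nonneg hx _)) hnum
    omega
  rw [← h2] at h4
  exact lt_of_pow_lt_pow_left₀ 2 zero_le_one (by rw [one_pow]; exact h4)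

theorem main_fact (ε : ℝ) (hε : 0 < ε) : ∃ N₀ : ℕ, ∀ n : ℕ, N₀ ≤ n → ∀ D : ℕ, 1 ≤ D →
    (D : ℝ) ≤ (n : ℝ) ^ (ε * n / 400) → ∀ (t : ℕ) (c L : Fin t → ℕ),
    ∑ i, ((L i : ℝ) + Real.sqrt (ε * n)) ≤ ε * n / 400 →
    ∃ k : ℕ, n ≤ k ∧ (k : ℝ) ≤ (2 + ε) * n ∧ Odd k ∧ (∀ i, ¬ (c i ≤ k ∧ k ≤ c i + L i)) ∧
      ¬ ∃ z : ℤ, (D : ℝ) * T k = z := by
  obtain ⟨N₀, hN₀⟩ := numerics ε hε
  refine ⟨max N₀ 2, fun n hn D hD1 hD t c L hL => ?_⟩
  obtain ⟨μ, hμ4, hw, h8, h4, hfin⟩ := hN₀ n ((le_max_left _ _).trans hn)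
  have hn2 : 2 ≤ n := (le_max_right _ _).trans hn
  by_contra hcon
  have hcov : ∀ k : ℕ, n ≤ k → (k : ℝ) ≤ (2 + ε) * n → Odd k → (¬ ∃ z : ℤ, (D : ℝ) * T k = z) →
      ∃ i, c i ≤ k ∧ k ≤ c i + L i := by
    intro k h1 h2 h3 h4
    by_contra h5
    exact hcon ⟨k, h1, h2, h3, fun i hi => h5 ⟨i, hi⟩, h4⟩
  set m : ℕ := 2 * μ - 1 with hm
  set M : ℕ := 16 * μ ^ 2 with hM
  set q : ℕ := n + 2 * m with hq
  set E : Finset ℕ := Finset.univ.biUnion fun i : Fin t => Finset.Icc (c i - 1 - 2 * m) (c i + L i - 1 + 2 * m) with hE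
  have hEcard : 4 * E.card ≤ μ ^ 2 := by
    have h1 : E.card ≤ ∑ i : Fin t, (L i + 8 * μ) := by
      refine (Finset.card_biUnion_le).trans ?_
      refine Finset.sum_le_sum fun i _ => ?_
      rw [Nat.card_Icc]
      omega
    have h2 : (E.card : ℝ) ≤ 1.16 * (ε * n / 400) := by
      calc (E.card : ℝ) ≤ ((∑ i : Fin t, (L i + 8 * μ) : ℕ) : ℝ) := by exact_mod_cast h1
        _ = ∑ i : Fin t, ((L i : ℝ) + 8 * μ) := by push_cast; rfl
        _ ≤ ∑ i : Fin t, 1.16 * ((L i : ℝ) + Real.sqrt (ε * n)) := by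
            refine Finset.sum_le_sum fun i _ => ?_
            have : (0 : ℝ) ≤ L i := Nat.cast_nonneg _
            linarith
        _ = 1.16 * ∑ i : Fin t, ((L i : ℝ) + Real.sqrt (ε * n)) := by rw [Finset.mul_sum]
        _ ≤ 1.16 * (ε * n / 400) := by
            apply mul_le_mul_of_nonneg_left hL
            norm_num
    have h3 : (4 * E.card : ℝ) ≤ (μ : ℝ) ^ 2 := by linarith
    exact_mod_cast h3
  -- parameters
  set B : ℝ := 3 ^ (q + M) * 4 ^ 0 with hB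
  have hB1 : 1 ≤ B := by
    rw [hB]
    exact one_le_mul_of_one_le_of_one_le (one_le_pow₀ (by norm_num)) (one_le_pow₀ (by norm_num))
  set H : ℝ := ((M : ℝ) * B) ^ (1 / 3 : ℝ) with hH
  have hH0 : 0 ≤ H := by
    rw [hH]
    exact Real.rpow_nonneg (mul_nonneg (Nat.cast_nonneg _) (by linarith)) _
  have hspan := span_short (coM q 0 M E) B H hB1 (fun κ l => coeff_le q 0 M l κ) (by rw [Fintype.card_fin])
  obtain ⟨i, v, hv, hdet⟩ := exists_minor (ρ := μ ^ 2) _ (forms_indep (q := q) (M := M) (μ := μ) (by omega) (by omega)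
    (by rw [hM]; nlinarith)) _ hspan (by
      rw [Fintype.card_prod, Fintype.card_fin, Fintype.card_fin, Fintype.card_coe]
      nlinarith)
  choose x hxA hxH hxv using hv
  -- the matrix of forms
  set cf : Fin (μ ^ 2) → ℝ := fun p => (2 * (μ + ((i p).1 : ℕ))).factorial / (2 * Real.pi * (2 * ((i p).2 : ℕ)).factorial)
    with hcf
  have hcf0 : ∀ p, cf p ≠ 0 := by
    intro p
    rw [hcf]
    have hpi := Real.pi_pos
    simp only
    positivity
  set G : Matrix (Fin (μ ^ 2)) (Fin (μ ^ 2)) ℝ := fun p j =>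
    FF (SU q 0 M (x j) (μ + ((i p).1 : ℕ)) ((i p).2 : ℕ)) with hG
  have hG1 : ∀ p j, G p j = cf p * ∫ y in (-1 : ℝ)..1, at1 (RU q 0 M (x j)) y *
      ph (2 * ((i p).2 : ℕ)) (2 * (μ + ((i p).1 : ℕ)) + 1) y := by
    intro p j
    rw [hG, hcf]
    simp only
    apply main_id
    have := (i p).2.2
    omega
  have hGdet : G.det ≠ 0 := by
    have h1 : G = Matrix.of fun p j => cf p * (Matrix.of (fun p j => ∑ l, v j l *
        (∫ y in (-1 : ℝ)..1, ((1 - y ^ 2) ^ (q + (l : ℕ)) * y ^ (2 * 0)) *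
          ph (2 * ((i p).2 : ℕ)) (2 * (μ + ((i p).1 : ℕ)) + 1) y))) p j := by
      ext p j
      rw [hG1]
      simp only [Matrix.of_apply]
      congr 1
      rw [hxv j]
      rw [← sum_form (x j) _ _ (by have := (i p).2.2; omega)]
    rw [h1, Matrix.det_mul_column]
    exact mul_ne_zero (Finset.prod_ne_zero_iff.2 fun p _ => hcf0 p) hdet
  -- integrality
  have hint : ∀ p j, ∃ z : ℤ, (D : ℝ) * G p j = z := by
    intro p j
    have ha : μ + ((i p).1 : ℕ) ≤ m := by have := (i p).1.2; omega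
    have hb : ((i p).2 : ℕ) ≤ m := by have := (i p).2.2; omega
    have hvan : ∀ κ ∈ E, (RU q 0 M (x j)).coeff κ = 0 := by
      intro κ hκ
      have := congrFun (hxA j) ⟨κ, hκ⟩
      rw [coM_mulVec] at this
      exact this
    rw [hG]
    apply FF_int
    intro κ hκ
    by_contra hz
    apply hκ
    have hr := SU_coeff' (x j) ha hb hκ
    obtain ⟨i', hi1, hi2⟩ := hcov (2 * κ + 1) (by omega) (by
      have h1 : 2 * κ + 1 ≤ 2 * n + 32 * μ ^ 2 + 12 * μ := by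
        have h2 := hr.2
        omega
      have h2 : ((2 * κ + 1 : ℕ) : ℝ) ≤ 2 * n + 32 * μ ^ 2 + 12 * μ := by exact_mod_cast h1
      linarith) ⟨κ, rfl⟩ hz
    apply SU_vanish (x j) ha hb
    intro j' h1 h2
    apply hvan
    rw [hE, Finset.mem_biUnion]
    refine ⟨i', Finset.mem_univ _, ?_⟩
    rw [Finset.mem_Icc]
    omega
  choose z hz using hint
  have hD0 : (0 : ℝ) < D := by exact_mod_cast hD1
  have hlow : 1 ≤ (D : ℝ) ^ (μ ^ 2) * |G.det| := by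
    have h1 : ((D : ℝ) • G).det = (Matrix.of z).det := by
      have h2 : ((D : ℝ) • G) = (Matrix.of z).map (Int.cast : ℤ → ℝ) := by
        ext p j
        rw [Matrix.smul_apply, smul_eq_mul, hz]
        rfl
      rw [h2]
      exact (Int.cast_det (R := ℝ) (Matrix.of z)).symm
    rw [Matrix.det_smul, Fintype.card_fin] at h1
    have h3 : (Matrix.of z).det ≠ 0 := by
      intro h0
      rw [h0, Int.cast_zero] at h1
      rcases mul_eq_zero.mp h1 with h | h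
      · exact (pow_pos hD0 _).ne' h
      · exact hGdet h
    have h4 : (1 : ℝ) ≤ |(((Matrix.of z).det : ℤ) : ℝ)| := by
      have : (1 : ℤ) ≤ |(Matrix.of z).det| := Int.one_le_abs h3
      exact_mod_cast this
    rw [← h1, abs_mul, abs_of_pos (pow_pos hD0 _)] at h4
    exact h4
  -- smallness
  choose Γ hΓ1 hΓ2 using fun p => int_expand (a := μ + ((i p).1 : ℕ)) (b := ((i p).2 : ℕ)) (μ := μ) (by omega)
    (Nat.le_add_right _ _)
  have hμ0 : (0 : ℝ) < μ := by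
    have : 0 < μ := by omega
    exact_mod_cast this
  have hup := det_bound Γ (fun k j => ∫ y in (-1 : ℝ)..1, at1 (RU q 0 M (x j)) y * y ^ k) G
    (C := (2 * m).factorial * 4 ^ m) (N := 2 * M * H) (s := 2 / μ) (by positivity) (by positivity) (by positivity)
    (by
      rw [div_le_one hμ0]
      have : 2 ≤ μ := by omega
      exact_mod_cast this)
    (by
      intro p k
      refine (hΓ1 p k).trans ?_
      have ha : μ + ((i p).1 : ℕ) ≤ m := by have := (i p).1.2; omega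
      have h1 : ((2 * (μ + ((i p).1 : ℕ))).factorial : ℝ) ≤ ((2 * m).factorial : ℝ) := by
        exact_mod_cast Nat.factorial_le (by omega)
      have h2 : (4 : ℝ) ^ (μ + ((i p).1 : ℕ)) ≤ 4 ^ m := pow_le_pow_right₀ (by norm_num) ha
      have h3 : (2 / (μ : ℝ) / 2) = 1 / μ := by
        field_simp
      rw [h3]
      gcongr)
    (fun k j => mom_bound (x j) hH0 (hxH j) k)
    (by
      intro p j
      rw [hG1]
      exact hΓ2 p _ (at1_cont q M (x j)))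
  have hnum := hfin D hD
  have hHe : ((M : ℝ) * 3 ^ (q + M)) ^ (1 / 3 : ℝ) = H := by
    rw [hH, hB, pow_zero, mul_one]
  rw [hHe] at hnum
  -- combine
  have hcomb : (D : ℝ) ^ (μ ^ 2) * |G.det| < 1 :=
    combine_lem (D := D) (K := 2 * ((2 * m).factorial * 4 ^ m) * (2 * M * H)) (x := 2 / (μ : ℝ)) (by positivity)
      (by positivity) (by positivity) (by positivity) hup (by push_cast; exact hnum)
  linarith

end Pool.Agent.LibFD50
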