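import Mathlib

/-! Row F7 (only Mathlib). Siegel-type pigeonhole with congruences: the short solutions of A x = 0, δ_g | (A' x)_g span a subspace
of codimension at most c.
PROOF. W = the span, w = finrank W, M = card β. (1) There are w coordinates j_1..j_w (an injective f : Fin w → β) such that
v ∈ W, v (f i) = 0 for all i implies v = 0: the row/coordinate functionals restricted to W span the dual; e.g. apply
`Submodule.exists_fun_fin_finrank_span_eq` (or `exists_linearIndependent'`) to the functionals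
`(LinearMap.proj j).domRestrict W : Module.Dual ℝ W`, whose span is ⊤ (an element killed by all of them is 0), or the argument of
LibCN21.R18 (mkQ of the Pi.single). (2) The map x ↦ (A x, (A' x mod δ_g)_g, (x (f i))_i) on the box {x : β → ℤ | 0 <= x_j <= H} is
injective: if x, y have the same image, then z = x - y satisfies A z = 0, δ_g | (A' z)_g, |z_j| <= H, so z ∈ W and z (f i) = 0, z = 0.
(3) Count: (H+1)^M <= #{A x} * ∏ δ_g * (H+1)^w, and |(A x)_i| <= M B H gives at most 2 M B H + 1 values per row (integers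
in [-⌊MBH⌋, ⌊MBH⌋]: card = 2⌊MBH⌋ + 1). With h: (H+1)^M < (H+1)^(c+1+w), so M < c+1+w (H = 0 impossible: h reads 1.. < 1, since
every δ_g >= 1; `pow_lt_pow_iff_right₀`). Type of the target: (α → Finset.Icc (-N) N) × (∀ g, ZMod (δ g)) × (Fin w → Fin (H+1))
(Fintype of ZMod needs NeZero (δ g)) or use Fin (δ g). -/

set_option autoImplicit false

namespace Pool.Agent.LibFD50

/-- coordinates which determine the elements of a subspace -/
private theorem F7_coord {β : Type*} [Fintype β] (W : Submodule ℝ (β → ℝ)) :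
    ∃ (w : ℕ) (f : Fin w → β), w ≤ Module.finrank ℝ W ∧
      ∀ v ∈ W, (∀ i, v (f i) = 0) → v = 0 := by
  classical
  let φ : β → Module.Dual ℝ W := fun j => (LinearMap.proj j : (β → ℝ) →ₗ[ℝ] ℝ).domRestrict W
  obtain ⟨g, hg1, hg2, _⟩ := Submodule.exists_fun_fin_finrank_span_eq ℝ (Set.range φ)
  choose f hf using hg1
  refine ⟨_, f, ?_, ?_⟩
  · refine (Submodule.finrank_le _).trans ?_
    rw [Subspace.dual_finrank_eq]
  · intro v hv h0
    funext j
    have h1 : φ j ∈ Submodule.span ℝ (Set.range g) := by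
      rw [hg2]
      exact Submodule.subset_span ⟨j, rfl⟩
    have h2 : Submodule.span ℝ (Set.range g) ≤
        LinearMap.ker (Module.Dual.eval ℝ W ⟨v, hv⟩) := by
      rw [Submodule.span_le]
      rintro _ ⟨i, rfl⟩
      rw [SetLike.mem_coe, LinearMap.mem_ker, Module.Dual.eval_apply, ← hf i]
      exact h0 i
    have h3 := h2 h1
    rw [LinearMap.mem_ker, Module.Dual.eval_apply] at h3
    exact h3

theorem span_short_mod {α β γ : Type*} [Fintype α] [Fintype β] [Fintype γ] [DecidableEq β] (A : Matrix α β ℤ)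
    (A' : Matrix γ β ℤ) (δ : γ → ℕ) (hδ : ∀ g, 1 ≤ δ g) (B : ℝ) (H c : ℕ) (hB : 0 ≤ B)
    (hA : ∀ i j, |(A i j : ℝ)| ≤ B)
    (h : (2 * (Fintype.card β * B * H) + 1) ^ Fintype.card α * ∏ g, (δ g : ℝ) < ((H : ℝ) + 1) ^ (c + 1)) :
    Fintype.card β ≤ c + Module.finrank ℝ (Submodule.span ℝ
      {v : β → ℝ | ∃ x : β → ℤ, A.mulVec x = 0 ∧ (∀ g, (δ g : ℤ) ∣ A'.mulVec x g) ∧ (∀ j, |(x j : ℝ)| ≤ H) ∧
        v = fun j => (x j : ℝ)}) := by
  classical
  set W := Submodule.span ℝ
      {v : β → ℝ | ∃ x : β → ℤ, A.mulVec x = 0 ∧ (∀ g, (δ g : ℤ) ∣ A'.mulVec x g) ∧ (∀ j, |(x j : ℝ)| ≤ H) ∧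
        v = fun j => (x j : ℝ)} with hW
  obtain ⟨w, f, hw, hf⟩ := F7_coord W
  set R : ℝ := Fintype.card β * B * H with hR
  have hR0 : 0 ≤ R := by positivity
  set N : ℕ := ⌊R⌋₊ with hN
  let F : (β → ℤ) → (α → ℤ) × (γ → ℤ) × (Fin w → ℤ) := fun x =>
    (A.mulVec x, (fun g => A'.mulVec x g % (δ g : ℤ)), fun i => x (f i))
  let box : Finset (β → ℤ) := Fintype.piFinset fun _ => Finset.Icc (0 : ℤ) H
  let tgt : Finset ((α → ℤ) × (γ → ℤ) × (Fin w → ℤ)) :=
    (Fintype.piFinset fun _ => Finset.Icc (-(N : ℤ)) N) ×ˢ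
      ((Fintype.piFinset fun g => Finset.Ico (0 : ℤ) (δ g)) ×ˢ
        (Fintype.piFinset fun _ => Finset.Icc (0 : ℤ) H))
  have hmap : ∀ x ∈ box, F x ∈ tgt := by
    intro x hx
    rw [Fintype.mem_piFinset] at hx
    have hx' : ∀ j, 0 ≤ x j ∧ x j ≤ H := fun j => Finset.mem_Icc.1 (hx j)
    simp only [F, tgt, Finset.mem_product, Fintype.mem_piFinset]
    refine ⟨fun i => ?_, fun g => ?_, fun i => hx (f i)⟩
    · have h1 : |((A.mulVec x i : ℤ) : ℝ)| ≤ R := by
        have h2 : ((A.mulVec x i : ℤ) : ℝ) = ∑ j, (A i j : ℝ) * (x j : ℝ) := by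
          simp only [Matrix.mulVec, dotProduct]
          push_cast
          rfl
        rw [h2]
        calc |∑ j, (A i j : ℝ) * (x j : ℝ)| ≤ ∑ j, |(A i j : ℝ) * (x j : ℝ)| :=
              Finset.abs_sum_le_sum_abs _ _
          _ ≤ ∑ _j : β, B * H := by
              refine Finset.sum_le_sum fun j _ => ?_
              rw [abs_mul]
              have h3 : |(x j : ℝ)| ≤ H := by
                rw [abs_of_nonneg (by exact_mod_cast (hx' j).1)]
                exact_mod_cast (hx' j).2
              exact mul_le_mul (hA i j) h3 (abs_nonneg _) hB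
          _ = R := by
              rw [Finset.sum_const, Finset.card_univ, nsmul_eq_mul, hR]
              ring
      have h4 : ((A.mulVec x i).natAbs : ℝ) ≤ R := by
        rw [Nat.cast_natAbs, Int.cast_abs]
        exact h1
      have h5 : (A.mulVec x i).natAbs ≤ N := Nat.le_floor h4
      rw [Finset.mem_Icc]
      omega
    · have hg : (0 : ℤ) < δ g := by exact_mod_cast hδ g
      rw [Finset.mem_Ico]
      exact ⟨Int.emod_nonneg _ hg.ne', Int.emod_lt_of_pos _ hg⟩
  have hinj : Set.InjOn F box := by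
    intro x hx y hy hxy
    rw [Finset.mem_coe, Fintype.mem_piFinset] at hx hy
    simp only [F, Prod.mk.injEq] at hxy
    obtain ⟨e1, e2, e3⟩ := hxy
    have hv : (fun j => ((x - y) j : ℝ)) ∈ W := by
      refine Submodule.subset_span ⟨x - y, ?_, ?_, ?_, rfl⟩
      · rw [Matrix.mulVec_sub, e1, sub_self]
      · intro g
        have h6 := congrFun e2 g
        rw [Matrix.mulVec_sub]
        exact Int.ModEq.dvd (show A'.mulVec y g ≡ A'.mulVec x g [ZMOD (δ g)] from h6.symm)
      · intro j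
        have h7 := Finset.mem_Icc.1 (hx j)
        have h8 := Finset.mem_Icc.1 (hy j)
        have h9 : |(x - y) j| ≤ (H : ℤ) := by
          rw [Pi.sub_apply, abs_le]
          constructor <;> omega
        exact_mod_cast h9
    have h0 := hf _ hv (fun i => by
      have h10 : x (f i) = y (f i) := congrFun e3 i
      simp only [Pi.sub_apply, h10, sub_self, Int.cast_zero])
    funext j
    have h11 := congrFun h0 j
    simp only [Pi.sub_apply, Pi.zero_apply, Int.cast_eq_zero] at h11
    omega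
  have hcard := Finset.card_le_card_of_injOn F hmap hinj
  have hbox : box.card = (H + 1) ^ Fintype.card β := by
    simp only [box, Fintype.card_piFinset, Int.card_Icc, Finset.prod_const, Finset.card_univ]
    congr 1
  have htgt : tgt.card = (2 * N + 1) ^ Fintype.card α * ((∏ g, δ g) * (H + 1) ^ w) := by
    simp only [tgt, Finset.card_product, Fintype.card_piFinset, Int.card_Icc, Int.card_Ico,
      Finset.prod_const, Finset.card_univ, Fintype.card_fin]
    congr 2
    omega
  rw [hbox, htgt] at hcard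
  have hcardR : ((H : ℝ) + 1) ^ Fintype.card β ≤
      (2 * (N : ℝ) + 1) ^ Fintype.card α * ((∏ g, (δ g : ℝ)) * ((H : ℝ) + 1) ^ w) := by
    exact_mod_cast hcard
  have hH1 : (1 : ℝ) ≤ (H : ℝ) + 1 := by
    have : (0 : ℝ) ≤ H := Nat.cast_nonneg H
    linarith
  have hN' : (N : ℝ) ≤ R := Nat.floor_le hR0
  have hprod : 0 ≤ ∏ g, (δ g : ℝ) := Finset.prod_nonneg fun g _ => Nat.cast_nonneg _
  have hlt : ((H : ℝ) + 1) ^ Fintype.card β <
      ((H : ℝ) + 1) ^ (c + 1 + Module.finrank ℝ W) := by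
    calc ((H : ℝ) + 1) ^ Fintype.card β
        ≤ (2 * (N : ℝ) + 1) ^ Fintype.card α * ((∏ g, (δ g : ℝ)) * ((H : ℝ) + 1) ^ w) := hcardR
      _ ≤ (2 * R + 1) ^ Fintype.card α * ((∏ g, (δ g : ℝ)) *
            ((H : ℝ) + 1) ^ Module.finrank ℝ W) := by
          have h12 : ((H : ℝ) + 1) ^ w ≤ ((H : ℝ) + 1) ^ Module.finrank ℝ W :=
            pow_le_pow_right₀ hH1 hw
          gcongr
      _ = ((2 * R + 1) ^ Fintype.card α * ∏ g, (δ g : ℝ)) *
            ((H : ℝ) + 1) ^ Module.finrank ℝ W := by ring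
      _ < ((H : ℝ) + 1) ^ (c + 1) * ((H : ℝ) + 1) ^ Module.finrank ℝ W :=
          mul_lt_mul_of_pos_right h (by positivity)
      _ = ((H : ℝ) + 1) ^ (c + 1 + Module.finrank ℝ W) := (pow_add _ _ _).symm
  have hfin : Fintype.card β < c + 1 + Module.finrank ℝ W := by
    by_contra hcon
    exact absurd hlt (not_lt.2 (pow_le_pow_right₀ hH1 (not_lt.1 hcon)))
  omega

end Pool.Agent.LibFD50
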