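import Mathlib
import Pool.Agent.LibFD50.F5

/-! Row F8. Numerics, second form. ADAPT F5 (`numerics`, same μ = ⌊sqrt(κ n)⌋₊, κ = ε/48; F5_F has helper bounds), with
H = ⌊n^(ε n/500)⌋₊.
(a)(b)(c) as in F5. (d) e <= μ^2/4, H >= 1: log(2 M B H + 1) <= log(3 M B) + log H, M B = 16 μ^2 3^(..) <= exp(K n), so
log LHS <= (μ^2/4)(log H + K n) + 8 μ ε n sqrt(ε n)/50000 log n, log RHS >= μ^2 log(H+1) >= μ^2 (ε n/500) log n;
μ <= sqrt(ε n/48): 8/(sqrt 48 * 50000) = 2.3094e-5, and (3/4)(0.9/48)/500 = 2.8125e-5 (times (ε n)^2 log n), the rest is O(n μ^2) = O(n^2).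
(e) 2(1/400 + 1/500) = 0.009 < 0.9/(48*2) = 0.009375 (times ε n log n), the rest is O(n).
-/

set_option autoImplicit false

namespace Pool.Agent.LibFD50

open Filter

theorem F8_G (κ : ℝ) (n μ : ℕ) (hμ1 : 1 ≤ μ) (hn : 1 ≤ n) (hμ : (μ : ℝ) ^ 2 ≤ κ * n) :
    ((16 * μ ^ 2 : ℕ) : ℝ) * 3 ^ (n + 2 * (2 * μ - 1) + 16 * μ ^ 2) ≤
      Real.exp ((56 * κ + 2) * n) := by
  have hμR : (1 : ℝ) ≤ μ := by exact_mod_cast hμ1
  have hnR : (1 : ℝ) ≤ n := by exact_mod_cast hn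
  have hμμ : (μ : ℝ) ≤ (μ : ℝ) ^ 2 := by nlinarith
  have hM : ((16 * μ ^ 2 : ℕ) : ℝ) = 16 * (μ : ℝ) ^ 2 := by push_cast; ring
  have b5 : ((16 * μ ^ 2 : ℕ) : ℝ) ≤ Real.exp (16 * (κ * n)) := by
    rw [hM]
    refine le_trans ?_ (F5_self _)
    linarith
  have b6 : (3 : ℝ) ^ (n + 2 * (2 * μ - 1) + 16 * μ ^ 2) ≤ Real.exp (2 * n + 40 * (κ * n)) := by
    have h1 : (3 : ℝ) ^ (n + 2 * (2 * μ - 1) + 16 * μ ^ 2) ≤ 3 ^ (n + 4 * μ + 16 * μ ^ 2) :=
      pow_le_pow_right₀ (by norm_num) (by omega)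
    have h2 : (3 : ℝ) ^ (n + 4 * μ + 16 * μ ^ 2) ≤ Real.exp 2 ^ (n + 4 * μ + 16 * μ ^ 2) :=
      pow_le_pow_left₀ (by norm_num) (by linarith [F5_four]) _
    refine (h1.trans h2).trans ?_
    rw [← Real.exp_nat_mul]
    apply Real.exp_le_exp.2
    push_cast
    nlinarith
  calc ((16 * μ ^ 2 : ℕ) : ℝ) * 3 ^ (n + 2 * (2 * μ - 1) + 16 * μ ^ 2)
      ≤ Real.exp (16 * (κ * n)) * Real.exp (2 * n + 40 * (κ * n)) :=
        mul_le_mul b5 b6 (by positivity) (Real.exp_pos _).le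
    _ = Real.exp ((56 * κ + 2) * n) := by
        rw [← Real.exp_add]
        congr 1
        ring

theorem F8_F (κ : ℝ) (n μ D H : ℕ) (T T' : ℝ) (hμ1 : 1 ≤ μ) (hn : 1 ≤ n)
    (hμ : (μ : ℝ) ^ 2 ≤ κ * n) (hD : (D : ℝ) ≤ Real.exp T) (hH : (H : ℝ) ≤ Real.exp T') :
    (μ : ℝ) ^ 2 * D * (2 * ((2 * (2 * μ - 1)).factorial * 4 ^ (2 * μ - 1)) *
      (2 * ((16 * μ ^ 2 : ℕ) : ℝ) * H)) ≤ Real.exp (T + T' + (53 * κ + 1) * n) := by
  have hμR : (1 : ℝ) ≤ μ := by exact_mod_cast hμ1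
  have hnR : (1 : ℝ) ≤ n := by exact_mod_cast hn
  have hμμ : (μ : ℝ) ≤ (μ : ℝ) ^ 2 := by nlinarith
  have b1 : (μ : ℝ) ^ 2 ≤ Real.exp (κ * n) := hμ.trans (F5_self _)
  have b2 : (((2 * (2 * μ - 1)).factorial : ℕ) : ℝ) ≤ Real.exp (16 * (κ * n)) := by
    have h1 : (2 * (2 * μ - 1)).factorial ≤ (4 * μ) ^ (4 * μ) :=
      (Nat.factorial_le (by omega)).trans (Nat.factorial_le_pow (4 * μ))
    have h2 : (((2 * (2 * μ - 1)).factorial : ℕ) : ℝ) ≤ ((4 * μ : ℕ) : ℝ) ^ (4 * μ) := by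
      exact_mod_cast h1
    have h3 : ((4 * μ : ℕ) : ℝ) ≤ Real.exp ((4 * μ : ℕ) : ℝ) := F5_self _
    have h4 : ((4 * μ : ℕ) : ℝ) ^ (4 * μ) ≤ Real.exp ((4 * μ : ℕ) : ℝ) ^ (4 * μ) :=
      pow_le_pow_left₀ (Nat.cast_nonneg _) h3 _
    refine (h2.trans h4).trans ?_
    rw [← Real.exp_nat_mul]
    apply Real.exp_le_exp.2
    push_cast
    nlinarith
  have b3 : (4 : ℝ) ^ (2 * μ - 1) ≤ Real.exp (4 * (κ * n)) := by
    have h1 : (4 : ℝ) ^ (2 * μ - 1) ≤ 4 ^ (2 * μ) :=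
      pow_le_pow_right₀ (by norm_num) (by omega)
    have h2 : (4 : ℝ) ^ (2 * μ) ≤ Real.exp 2 ^ (2 * μ) :=
      pow_le_pow_left₀ (by norm_num) F5_four _
    refine (h1.trans h2).trans ?_
    rw [← Real.exp_nat_mul]
    apply Real.exp_le_exp.2
    push_cast
    nlinarith
  have hM : ((16 * μ ^ 2 : ℕ) : ℝ) = 16 * (μ : ℝ) ^ 2 := by push_cast; ring
  have b4 : 2 * ((16 * μ ^ 2 : ℕ) : ℝ) ≤ Real.exp (32 * (κ * n)) := by
    rw [hM]
    refine le_trans ?_ (F5_self _)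
    linarith
  have e : Real.exp (κ * n) * Real.exp T * (Real.exp 1 * (Real.exp (16 * (κ * n)) *
      Real.exp (4 * (κ * n))) * (Real.exp (32 * (κ * n)) * Real.exp T')) ≤
        Real.exp (T + T' + (53 * κ + 1) * n) := by
    simp only [← Real.exp_add]
    apply Real.exp_le_exp.2
    nlinarith
  refine le_trans ?_ e
  refine mul_le_mul (mul_le_mul b1 hD (Nat.cast_nonneg _) (Real.exp_pos _).le) ?_ (by positivity)
    (by positivity)
  refine mul_le_mul (mul_le_mul F5_two (mul_le_mul b2 b3 (by positivity) (Real.exp_pos _).le)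
    (by positivity) (Real.exp_pos _).le) ?_ (by positivity) (by positivity)
  exact mul_le_mul b4 hH (Nat.cast_nonneg _) (Real.exp_pos _).le

/-- the inequality of part (d) for exponents -/
theorem F8_d (ε κ s μ n L K : ℝ) (hε : 0 < ε) (hκ : ε = 48 * κ) (hn : 0 < n) (hs1 : 20 ≤ s)
    (hs2 : s ^ 2 = κ * n) (hμ1 : μ ≤ s) (hμ2 : s - 1 < μ) (hK : 0 ≤ K)
    (hL : K ≤ 0.001 * ε * L) :
    μ ^ 2 / 4 * (K * n + L * (ε * n / 500)) +
      L * (ε * n * Real.sqrt (ε * n) / 50000 * (8 * μ)) ≤ μ ^ 2 * (L * (ε * n / 500)) := by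
  have hμ0 : 0 < μ := by linarith
  have hsq : Real.sqrt (ε * n) ≤ 7 * s := by
    apply Real.sqrt_le_iff.2
    refine ⟨by linarith, ?_⟩
    rw [hκ, mul_assoc, ← hs2]
    nlinarith
  have hεL : 0 ≤ ε * L := by
    by_contra hcon
    push Not at hcon
    nlinarith
  have hL0 : 0 ≤ L := by
    by_contra hcon
    push Not at hcon
    nlinarith
  have hμs : 0.95 * s ≤ μ := by linarith
  -- divide by `μ n`
  have h1 : L * (ε * n * Real.sqrt (ε * n) / 50000 * (8 * μ)) ≤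
      L * (ε * n * (7 * s) / 50000 * (8 * μ)) := by
    have h2 : ε * n * Real.sqrt (ε * n) / 50000 * (8 * μ) ≤ ε * n * (7 * s) / 50000 * (8 * μ) := by
      have h3 : ε * n * Real.sqrt (ε * n) ≤ ε * n * (7 * s) :=
        mul_le_mul_of_nonneg_left hsq (by positivity)
      have h4 : ε * n * Real.sqrt (ε * n) / 50000 ≤ ε * n * (7 * s) / 50000 := by linarith
      exact mul_le_mul_of_nonneg_right h4 (by positivity)
    exact mul_le_mul_of_nonneg_left h2 hL0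
  have h5 : 0 ≤ (μ * n) * (μ * (0.0015 * (ε * L)) - 0.00112 * s * (ε * L) - μ * K / 4) := by
    apply mul_nonneg (by positivity)
    have h6 : 0.95 * s * (0.0015 * (ε * L)) ≤ μ * (0.0015 * (ε * L)) :=
      mul_le_mul_of_nonneg_right hμs (by positivity)
    have h7 : μ * K / 4 ≤ s * (0.001 * (ε * L)) / 4 := by
      have h8 : μ * K ≤ s * (0.001 * (ε * L)) := by
        apply mul_le_mul hμ1 (by linarith) hK (by linarith)
      linarith
    have h9 : 0 ≤ s * (ε * L) := mul_nonneg (by linarith) hεL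
    nlinarith
  nlinarith

theorem numerics' (ε : ℝ) (hε : 0 < ε) : ∃ N₀ : ℕ, ∀ n : ℕ, N₀ ≤ n → ∃ μ H : ℕ, 4 ≤ μ ∧
    (32 * (μ : ℝ) ^ 2 + 12 * μ ≤ ε * n) ∧ (8 * (μ : ℝ) ≤ 1.16 * Real.sqrt (ε * n)) ∧
    (4 * (1.16 * (ε * n / 400)) ≤ (μ : ℝ) ^ 2) ∧
    (∀ (e : ℕ) (P : ℝ), 4 * e ≤ μ ^ 2 → 0 ≤ P → P ≤ (n : ℝ) ^ (ε * n * Real.sqrt (ε * n) / 50000 * (8 * μ)) →
      (2 * (((16 * μ ^ 2 : ℕ) : ℝ) * 3 ^ (n + 2 * (2 * μ - 1) + 16 * μ ^ 2) * H) + 1) ^ e * P <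
        ((H : ℝ) + 1) ^ (μ ^ 2 + 1)) ∧
    ∀ D : ℕ, (D : ℝ) ≤ (n : ℝ) ^ (ε * n / 400) →
      ((μ : ℝ) ^ 2 * D * (2 * ((2 * (2 * μ - 1)).factorial * 4 ^ (2 * μ - 1)) * (2 * ((16 * μ ^ 2 : ℕ) : ℝ) * H))) ^ 2 *
        (2 / (μ : ℝ)) ^ (μ ^ 2 - 1) < 1 := by
  obtain ⟨κ, hκ⟩ : ∃ κ : ℝ, κ = ε / 48 := ⟨_, rfl⟩
  have hκ0 : 0 < κ := by rw [hκ]; positivity
  have hε48 : ε = 48 * κ := by rw [hκ]; ring
  obtain ⟨c₀, hc₀⟩ : ∃ c₀ : ℝ, c₀ = Real.log κ / 2 - 2 := ⟨_, rfl⟩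
  obtain ⟨K, hK⟩ : ∃ K : ℝ, K = 53 * κ + 1 := ⟨_, rfl⟩
  obtain ⟨K', hK'⟩ : ∃ K' : ℝ, K' = 56 * κ + 4 := ⟨_, rfl⟩
  have t1 : Tendsto (fun n : ℕ => Real.sqrt (κ * (n : ℝ))) atTop atTop :=
    Real.tendsto_sqrt_atTop.comp (tendsto_natCast_atTop_atTop.const_mul_atTop hκ0)
  have t2 : Tendsto (fun n : ℕ => 0.0003 * ε * Real.log (n : ℝ)) atTop atTop :=
    (Real.tendsto_log_atTop.comp tendsto_natCast_atTop_atTop).const_mul_atTop (by positivity)
  have t3 : Tendsto (fun n : ℕ => 0.001 * ε * Real.log (n : ℝ)) atTop atTop :=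
    (Real.tendsto_log_atTop.comp tendsto_natCast_atTop_atTop).const_mul_atTop (by positivity)
  obtain ⟨N, hN⟩ := eventually_atTop.1 ((t1.eventually_ge_atTop 20).and
    ((t2.eventually_ge_atTop (2 * K - 0.9 * κ * c₀ + 1)).and
      ((t3.eventually_ge_atTop K').and (eventually_ge_atTop 1))))
  refine ⟨N, fun n hn => ?_⟩
  obtain ⟨h1, h2, h2', h3⟩ := hN n hn
  have hnR : (1 : ℝ) ≤ n := by exact_mod_cast h3
  have hn0 : (0 : ℝ) < n := by linarith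
  obtain ⟨s, hs⟩ : ∃ s : ℝ, s = Real.sqrt (κ * (n : ℝ)) := ⟨_, rfl⟩
  rw [← hs] at h1
  have hs2 : s ^ 2 = κ * n := by rw [hs]; exact Real.sq_sqrt (by positivity)
  obtain ⟨μ, hμ⟩ : ∃ μ : ℕ, μ = ⌊s⌋₊ := ⟨_, rfl⟩
  have hμ1 : (μ : ℝ) ≤ s := by rw [hμ]; exact Nat.floor_le (by linarith)
  have hμ2 : s - 1 < μ := by rw [hμ]; exact Nat.sub_one_lt_floor s
  have hμ19 : (19 : ℝ) < μ := by linarith
  have hμ19' : 19 < μ := by exact_mod_cast hμ19
  have hμs : (μ : ℝ) ^ 2 ≤ s ^ 2 := pow_le_pow_left₀ (by linarith) hμ1 2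
  have hμκ : (μ : ℝ) ^ 2 ≤ κ * n := by rw [← hs2]; exact hμs
  have hμl : 0.9 * s ^ 2 ≤ (μ : ℝ) ^ 2 - 1 := by nlinarith
  have hL0 : 0 ≤ Real.log (n : ℝ) := Real.log_nonneg hnR
  obtain ⟨T', hT'⟩ : ∃ T' : ℝ, T' = Real.log (n : ℝ) * (ε * n / 500) := ⟨_, rfl⟩
  have hT'0 : 0 ≤ T' := by rw [hT']; positivity
  obtain ⟨H, hH⟩ : ∃ H : ℕ, H = ⌊Real.exp T'⌋₊ := ⟨_, rfl⟩
  have hH1 : (H : ℝ) ≤ Real.exp T' := by rw [hH]; exact Nat.floor_le (Real.exp_pos _).le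
  have hH2 : Real.exp T' < (H : ℝ) + 1 := by rw [hH]; exact Nat.lt_floor_add_one _
  have hH3 : 1 ≤ H := by
    rw [hH]
    exact Nat.le_floor (by rw [Nat.cast_one]; exact Real.one_le_exp hT'0)
  have hH3R : (1 : ℝ) ≤ H := by exact_mod_cast hH3
  refine ⟨μ, H, by omega, ?_, ?_, ?_, ?_, ?_⟩
  · rw [hε48, mul_assoc, ← hs2]
    nlinarith
  · have h4 : 8 / 1.16 * (μ : ℝ) ≤ Real.sqrt (ε * n) := by
      apply Real.le_sqrt_of_sq_le
      rw [hε48, mul_assoc, ← hs2]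
      nlinarith
    have h5 : 8 * (μ : ℝ) = 1.16 * (8 / 1.16 * (μ : ℝ)) := by ring
    rw [h5]
    exact mul_le_mul_of_nonneg_left h4 (by norm_num)
  · rw [hε48, mul_assoc 48, ← hs2]
    nlinarith
  · intro e P he hP0 hP
    rw [Real.rpow_def_of_pos hn0] at hP
    obtain ⟨G, hG⟩ : ∃ G : ℝ, G = ((16 * μ ^ 2 : ℕ) : ℝ) *
      3 ^ (n + 2 * (2 * μ - 1) + 16 * μ ^ 2) := ⟨_, rfl⟩
    have hG1 : G ≤ Real.exp ((56 * κ + 2) * n) := by
      rw [hG]
      exact F8_G κ n μ (by omega) h3 hμκ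
    have hG2 : 1 ≤ G := by
      rw [hG]
      have h4 : (1 : ℝ) ≤ ((16 * μ ^ 2 : ℕ) : ℝ) := by
        push_cast
        nlinarith
      have h5 : (1 : ℝ) ≤ 3 ^ (n + 2 * (2 * μ - 1) + 16 * μ ^ 2) := one_le_pow₀ (by norm_num)
      nlinarith
    rw [← hG]
    have hbase : 2 * (G * H) + 1 ≤ Real.exp (K' * n + T') := by
      have h4 : 1 ≤ G * H := by nlinarith
      have h5 : 2 * (G * H) + 1 ≤ 3 * (G * H) := by linarith
      have h6 : (3 : ℝ) ≤ Real.exp (2 * n) := by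
        have h7 : Real.exp 2 ≤ Real.exp (2 * n) := Real.exp_le_exp.2 (by linarith)
        linarith [F5_four]
      calc 2 * (G * H) + 1 ≤ 3 * (G * H) := h5
        _ ≤ Real.exp (2 * n) * (Real.exp ((56 * κ + 2) * n) * Real.exp T') := by
            refine mul_le_mul h6 (mul_le_mul hG1 hH1 (by linarith) (Real.exp_pos _).le)
              (by positivity) (Real.exp_pos _).le
        _ = Real.exp (K' * n + T') := by
            rw [← Real.exp_add, ← Real.exp_add, hK']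
            congr 1
            ring
    have hexp0 : 0 ≤ K' * n + T' := by
      have : 0 ≤ K' := by rw [hK']; linarith
      positivity
    have heR : (e : ℝ) ≤ (μ : ℝ) ^ 2 / 4 := by
      have h4 : ((4 * e : ℕ) : ℝ) ≤ ((μ ^ 2 : ℕ) : ℝ) := by exact_mod_cast he
      push_cast at h4
      linarith
    have hd := F8_d ε κ s μ n (Real.log n) K' hε hε48 hn0 h1 hs2 hμ1 hμ2
      (by rw [hK']; linarith) h2'
    rw [← hT'] at hd
    calc (2 * (G * H) + 1) ^ e * P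
        ≤ Real.exp (K' * n + T') ^ e *
            Real.exp (Real.log (n : ℝ) * (ε * n * Real.sqrt (ε * n) / 50000 * (8 * μ))) :=
          mul_le_mul (pow_le_pow_left₀ (by nlinarith) hbase e) hP hP0 (by positivity)
      _ = Real.exp (e * (K' * n + T') +
            Real.log (n : ℝ) * (ε * n * Real.sqrt (ε * n) / 50000 * (8 * μ))) := by
          rw [← Real.exp_nat_mul, ← Real.exp_add]
      _ ≤ Real.exp ((μ : ℝ) ^ 2 * T') := by
          apply Real.exp_le_exp.2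
          have h4 : (e : ℝ) * (K' * n + T') ≤ (μ : ℝ) ^ 2 / 4 * (K' * n + T') :=
            mul_le_mul_of_nonneg_right heR hexp0
          linarith
      _ = Real.exp T' ^ (μ ^ 2) := by
          rw [← Real.exp_nat_mul]
          push_cast
          rfl
      _ < ((H : ℝ) + 1) ^ (μ ^ 2) :=
          pow_lt_pow_left₀ hH2 (Real.exp_pos _).le (by positivity)
      _ ≤ ((H : ℝ) + 1) ^ (μ ^ 2 + 1) := pow_le_pow_right₀ (by linarith) (by omega)
  · intro D hD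
    rw [Real.rpow_def_of_pos hn0] at hD
    have hF := F8_F κ n μ D H _ T' (by omega) h3 hμκ hD hH1
    rw [← hK] at hF
    have hlog : Real.log (n : ℝ) / 2 + c₀ ≤ Real.log ((μ : ℝ) / 2) := by
      have h4 : Real.log (s / 4) ≤ Real.log ((μ : ℝ) / 2) :=
        Real.log_le_log (by linarith) (by linarith)
      have h5 : Real.log (s / 4) = Real.log s - Real.log 4 :=
        Real.log_div (by linarith) (by norm_num)
      have h6 : 2 * Real.log s = Real.log κ + Real.log n := by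
        have : Real.log (s ^ 2) = Real.log (κ * n) := by rw [hs2]
        rw [Real.log_pow, Real.log_mul hκ0.ne' hn0.ne'] at this
        exact_mod_cast this
      have h7 : Real.log 4 ≤ 2 := by
        have := Real.log_le_log (by norm_num : (0 : ℝ) < 4) F5_four
        rwa [Real.log_exp] at this
      linarith
    have hlog0 : 0 ≤ Real.log ((μ : ℝ) / 2) := Real.log_nonneg (by linarith)
    have e1 : (2 / (μ : ℝ)) ^ (μ ^ 2 - 1) = Real.exp (-(((μ : ℝ) ^ 2 - 1) * Real.log ((μ : ℝ) / 2))) := by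
      have h4 : (2 / (μ : ℝ)) = Real.exp (-Real.log ((μ : ℝ) / 2)) := by
        rw [Real.exp_neg, Real.exp_log (by linarith), inv_div]
      rw [h4, ← Real.exp_nat_mul]
      congr 1
      have h5 : ((μ ^ 2 - 1 : ℕ) : ℝ) = (μ : ℝ) ^ 2 - 1 := by
        rw [Nat.cast_sub (Nat.one_le_pow _ _ (by omega))]
        push_cast
        ring
      rw [h5]
      ring
    rw [e1]
    have h8 : 0.9 * (κ * n) * (Real.log (n : ℝ) / 2 + c₀) ≤
        ((μ : ℝ) ^ 2 - 1) * Real.log ((μ : ℝ) / 2) := by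
      rw [hs2] at hμl
      calc 0.9 * (κ * n) * (Real.log (n : ℝ) / 2 + c₀) ≤ 0.9 * (κ * n) * Real.log ((μ : ℝ) / 2) :=
            mul_le_mul_of_nonneg_left hlog (by positivity)
        _ ≤ ((μ : ℝ) ^ 2 - 1) * Real.log ((μ : ℝ) / 2) := mul_le_mul_of_nonneg_right hμl hlog0
    have hF2 := pow_le_pow_left₀ (by positivity) hF 2
    have e2 : Real.exp (Real.log (n : ℝ) * (ε * n / 400) + T' + K * n) ^ 2 =
        Real.exp (2 * (Real.log (n : ℝ) * (ε * n / 400) + T' + K * n)) := by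
      rw [← Real.exp_nat_mul]
      norm_num
    rw [e2] at hF2
    have key : 2 * (Real.log (n : ℝ) * (ε * n / 400) + T' + K * n) +
        -(((μ : ℝ) ^ 2 - 1) * Real.log ((μ : ℝ) / 2)) < 0 := by
      have h9 : 2 * (Real.log (n : ℝ) * (ε * n / 400) + T' + K * n) -
          0.9 * (κ * n) * (Real.log (n : ℝ) / 2 + c₀) =
          n * (2 * K - 0.9 * κ * c₀ - 0.000375 * ε * Real.log n) := by
        rw [hT', hε48]
        ring
      have h10 : 2 * K - 0.9 * κ * c₀ - 0.000375 * ε * Real.log n < 0 := by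
        have : 0 ≤ ε * Real.log n := by positivity
        nlinarith
      have h11 : n * (2 * K - 0.9 * κ * c₀ - 0.000375 * ε * Real.log n) < 0 :=
        mul_neg_of_pos_of_neg hn0 h10
      linarith
    calc _ ≤ Real.exp (2 * (Real.log (n : ℝ) * (ε * n / 400) + T' + K * n)) *
          Real.exp (-(((μ : ℝ) ^ 2 - 1) * Real.log ((μ : ℝ) / 2))) :=
          mul_le_mul_of_nonneg_right hF2 (Real.exp_pos _).le
      _ = Real.exp (2 * (Real.log (n : ℝ) * (ε * n / 400) + T' + K * n) +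
          -(((μ : ℝ) ^ 2 - 1) * Real.log ((μ : ℝ) / 2))) := (Real.exp_add _ _).symm
      _ < 1 := by
          have h12 := Real.exp_lt_exp.2 key
          rwa [Real.exp_zero] at h12

end Pool.Agent.LibFD50
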