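import Mathlib
import Pool.Agent.LibCN21.Defs
import Pool.Agent.LibCN21.R09
import Pool.Agent.LibCN21.R23c
import Pool.Agent.LibFD50.F4

/-! Row F9. Divisibility of the coefficients and integrality. -/

set_option autoImplicit false

namespace Pool.Agent.LibFD50

open Pool.Agent.LibOT77 Pool.Agent.LibCN21 Polynomial MeasureTheory Filter Topology

private theorem F9_deg_be (a : ℕ) : (be a).natDegree ≤ 2 * a := by
  unfold be
  refine (natDegree_prod_le _ _).trans ?_
  calc ∑ c ∈ Finset.range a, (C ((2 * (c : ℤ) + 1) ^ 2) - (X - 1) ^ 2 : ℤ[X]).natDegree ≤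
      ∑ c ∈ Finset.range a, 2 := by
        refine Finset.sum_le_sum fun c _ => ?_
        refine (natDegree_sub_le _ _).trans ?_
        rw [natDegree_C]
        refine max_le (by norm_num) ?_
        refine (natDegree_pow_le).trans ?_
        have : (X - 1 : ℤ[X]).natDegree ≤ 1 := by
          have : (X - 1 : ℤ[X]) = X - C 1 := by simp
          rw [this, natDegree_X_sub_C]
        omega
    _ = 2 * a := by simp [mul_comm]

theorem SU_dvd {q M : ℕ} (x : Fin M → ℤ) {a b m : ℕ} (ha : a ≤ m) (hb : b ≤ m) {κ : ℕ} {d : ℤ}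
    (h : ∀ j : ℕ, κ ≤ j + 2 * m → j ≤ κ + 2 * m → d ∣ (RU q 0 M x).coeff j) :
    d ∣ (SU q 0 M x a b).coeff κ := by
  unfold SU
  rw [coeff_mul]
  apply Finset.dvd_sum
  rintro ⟨i, j⟩ hij
  rw [Finset.HasAntidiagonal.mem_antidiagonal] at hij
  by_cases hi : (be a).coeff i = 0
  · simp only [hi, zero_mul]
    exact dvd_zero _
  · have h1 := (le_natDegree_of_ne_zero hi).trans (F9_deg_be a)
    simp only at hij ⊢
    apply Dvd.dvd.mul_left
    rw [hasseDeriv_coeff]
    apply Dvd.dvd.mul_left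
    apply h
    · omega
    · omega

theorem FF_int' {S : ℤ[X]} {D : ℕ} (h : ∀ κ : ℕ, ∃ z : ℤ, (D : ℝ) * ((S.coeff (2 * κ) : ℝ) * T (2 * κ + 1)) = z) :
    ∃ z : ℤ, (D : ℝ) * FF S = z := by
  choose z hz using h
  refine ⟨∑ κ ∈ Finset.range (S.natDegree + 1), (-1) ^ κ * z κ, ?_⟩
  unfold FF
  rw [Finset.mul_sum, Int.cast_sum]
  refine Finset.sum_congr rfl fun κ _ => ?_
  push_cast
  rw [← hz κ]
  ring

/-- the matrix of coefficients with index function `idx` -/
noncomputable def coI (q M : ℕ) {γ : Type*} (idx : γ → ℕ) : Matrix γ (Fin M) ℤ :=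
  fun g l => ((X * (2 - X)) ^ (q + (l : ℕ)) * (1 - X) ^ (2 * 0) : ℤ[X]).coeff (idx g)

lemma coI_mulVec (q M : ℕ) {γ : Type*} (idx : γ → ℕ) (x : Fin M → ℤ) (g : γ) :
    (coI q M idx).mulVec x g = (RU q 0 M x).coeff (idx g) := by
  unfold RU Matrix.mulVec dotProduct coI
  rw [finsetSum_coeff]
  refine Finset.sum_congr rfl fun l _ => ?_
  rw [coeff_C_mul, mul_comm]

lemma prod_win (K : Finset ℕ) (d : ℕ → ℕ) (W : ℕ) :
    ∏ g : K × Fin W, (d (g.1 : ℕ) : ℝ) = (∏ k ∈ K, (d k : ℝ)) ^ W := by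
  rw [Fintype.prod_prod_type]
  simp only [Finset.prod_const, Finset.card_univ, Fintype.card_fin]
  rw [Finset.prod_pow, Finset.prod_coe_sort K (fun k => (d k : ℝ))]

end Pool.Agent.LibFD50
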