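import Mathlib
import Pool.Agent.LibFD50.F6
import Pool.Agent.LibFD50.F7
import Pool.Agent.LibFD50.F8
import Pool.Agent.LibFD50.F9

/-! Row F10. Assembly with individual denominators. -/

set_option autoImplicit false

namespace Pool.Agent.LibFD50

open Pool.Agent.LibOT77 Pool.Agent.LibCN21 Polynomial MeasureTheory Filter Topology

theorem main_indiv (ε : ℝ) (hε : 0 < ε) : ∃ N₀ : ℕ, ∀ n : ℕ, N₀ ≤ n → ∀ D : ℕ, 1 ≤ D →
    (D : ℝ) ≤ (n : ℝ) ^ (ε * n / 400) → ∀ d : ℕ → ℕ, (∀ k, 1 ≤ d k) →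
    ∏ k ∈ (Finset.Icc n ⌊(2 + ε) * n⌋₊).filter Odd, (d k : ℝ) ≤ (n : ℝ) ^ (ε * n * Real.sqrt (ε * n) / 50000) →
    ∀ (t : ℕ) (c L : Fin t → ℕ),
    ∑ i, ((L i : ℝ) + Real.sqrt (ε * n)) ≤ ε * n / 400 →
    ∃ k : ℕ, n ≤ k ∧ (k : ℝ) ≤ (2 + ε) * n ∧ Odd k ∧ (∀ i, ¬ (c i ≤ k ∧ k ≤ c i + L i)) ∧
      ¬ ∃ z : ℤ, (D : ℝ) * d k * T k = z := by
  obtain ⟨N₀, hN₀⟩ := numerics' ε hε
  refine ⟨max N₀ 2, fun n hn D hD1 hD d hd hdp t c L hL => ?_⟩
  obtain ⟨μ, H, hμ4, hw, h8, h4, hbox, hfin⟩ := hN₀ n ((le_max_left _ _).trans hn)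
  have hn2 : 2 ≤ n := (le_max_right _ _).trans hn
  by_contra hcon
  have hcov : ∀ k : ℕ, n ≤ k → (k : ℝ) ≤ (2 + ε) * n → Odd k → (¬ ∃ z : ℤ, (D : ℝ) * d k * T k = z) →
      ∃ i, c i ≤ k ∧ k ≤ c i + L i := by
    intro k h1 h2 h3 h4
    by_contra h5
    exact hcon ⟨k, h1, h2, h3, fun i hi => h5 ⟨i, hi⟩, h4⟩
  set m : ℕ := 2 * μ - 1 with hm
  set M : ℕ := 16 * μ ^ 2 with hM
  set q : ℕ := n + 2 * m with hq
  set E : Finset ℕ := Finset.univ.biUnion fun i : Fin t => Finset.Icc (c i - 1 - 2 * m) (c i + L i - 1 + 2 * m) with hE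
  have hEcard : 4 * E.card ≤ μ ^ 2 := by
    have h1 : E.card ≤ ∑ i : Fin t, (L i + 8 * μ) := by
      refine (Finset.card_biUnion_le).trans ?_
      refine Finset.sum_le_sum fun i _ => ?_
      rw [Nat.card_Icc]
      omega
    have h2 : (E.card : ℝ) ≤ 1.16 * (ε * n / 400) := by
      calc (E.card : ℝ) ≤ ((∑ i : Fin t, (L i + 8 * μ) : ℕ) : ℝ) := by exact_mod_cast h1
        _ = ∑ i : Fin t, ((L i : ℝ) + 8 * μ) := by push_cast; rfl
        _ ≤ ∑ i : Fin t, 1.16 * ((L i : ℝ) + Real.sqrt (ε * n)) := by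
            refine Finset.sum_le_sum fun i _ => ?_
            have : (0 : ℝ) ≤ L i := Nat.cast_nonneg _
            linarith
        _ = 1.16 * ∑ i : Fin t, ((L i : ℝ) + Real.sqrt (ε * n)) := by rw [Finset.mul_sum]
        _ ≤ 1.16 * (ε * n / 400) := by
            apply mul_le_mul_of_nonneg_left hL
            norm_num
    have h3 : (4 * E.card : ℝ) ≤ (μ : ℝ) ^ 2 := by linarith
    exact_mod_cast h3
  -- parameters
  set B : ℝ := 3 ^ (q + M) with hB
  have hB1 : 1 ≤ B := by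
    rw [hB]
    exact one_le_pow₀ (by norm_num)
  have hH0 : (0 : ℝ) ≤ H := Nat.cast_nonneg _
  set K : Finset ℕ := (Finset.Icc n ⌊(2 + ε) * n⌋₊).filter Odd with hK
  set idx : K × Fin (8 * μ) → ℕ := fun g => ((g.1 : ℕ) - 1 - 2 * m) + (g.2 : ℕ) with hidx
  have hspan := span_short_mod (coM q 0 M E) (coI q M idx) (fun g => d (g.1 : ℕ)) (fun g => hd _) B H (μ ^ 2)
    (by linarith) (fun κ l => (coeff_le q 0 M l κ).trans_eq (by rw [pow_zero, mul_one])) (by
      rw [Fintype.card_fin, Fintype.card_coe, prod_win K d (8 * μ)]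
      refine hbox E.card _ hEcard (by positivity) ?_
      calc (∏ k ∈ K, (d k : ℝ)) ^ (8 * μ) ≤ ((n : ℝ) ^ (ε * n * Real.sqrt (ε * n) / 50000)) ^ (8 * μ) := by
            apply pow_le_pow_left₀ (Finset.prod_nonneg fun k _ => Nat.cast_nonneg _) hdp
        _ = _ := by
            rw [← Real.rpow_natCast, ← Real.rpow_mul (Nat.cast_nonneg _)]
            push_cast
            rfl)
  obtain ⟨i, v, hv, hdet⟩ := exists_minor (ρ := μ ^ 2) _ (forms_indep (q := q) (M := M) (μ := μ) (by omega) (by omega)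
    (by rw [hM]; nlinarith)) _ hspan (by
      rw [Fintype.card_prod, Fintype.card_fin, Fintype.card_fin]
      nlinarith)
  choose x hxA hxd hxH hxv using hv
  -- the matrix of forms
  set cf : Fin (μ ^ 2) → ℝ := fun p => (2 * (μ + ((i p).1 : ℕ))).factorial / (2 * Real.pi * (2 * ((i p).2 : ℕ)).factorial)
    with hcf
  have hcf0 : ∀ p, cf p ≠ 0 := by
    intro p
    rw [hcf]
    have hpi := Real.pi_pos
    simp only
    positivity
  set G : Matrix (Fin (μ ^ 2)) (Fin (μ ^ 2)) ℝ := fun p j =>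
    FF (SU q 0 M (x j) (μ + ((i p).1 : ℕ)) ((i p).2 : ℕ)) with hG
  have hG1 : ∀ p j, G p j = cf p * ∫ y in (-1 : ℝ)..1, at1 (RU q 0 M (x j)) y *
      ph (2 * ((i p).2 : ℕ)) (2 * (μ + ((i p).1 : ℕ)) + 1) y := by
    intro p j
    rw [hG, hcf]
    simp only
    apply main_id
    have := (i p).2.2
    omega
  have hGdet : G.det ≠ 0 := by
    have h1 : G = Matrix.of fun p j => cf p * (Matrix.of (fun p j => ∑ l, v j l *
        (∫ y in (-1 : ℝ)..1, ((1 - y ^ 2) ^ (q + (l : ℕ)) * y ^ (2 * 0)) *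
          ph (2 * ((i p).2 : ℕ)) (2 * (μ + ((i p).1 : ℕ)) + 1) y))) p j := by
      ext p j
      rw [hG1]
      simp only [Matrix.of_apply]
      congr 1
      rw [hxv j]
      rw [← sum_form (x j) _ _ (by have := (i p).2.2; omega)]
    rw [h1, Matrix.det_mul_column]
    exact mul_ne_zero (Finset.prod_ne_zero_iff.2 fun p _ => hcf0 p) hdet
  -- integrality
  have hint : ∀ p j, ∃ z : ℤ, (D : ℝ) * G p j = z := by
    intro p j
    have ha : μ + ((i p).1 : ℕ) ≤ m := by have := (i p).1.2; omega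
    have hb : ((i p).2 : ℕ) ≤ m := by have := (i p).2.2; omega
    have hvan : ∀ κ ∈ E, (RU q 0 M (x j)).coeff κ = 0 := by
      intro κ hκ
      have := congrFun (hxA j) ⟨κ, hκ⟩
      rw [coM_mulVec] at this
      exact this
    rw [hG]
    apply FF_int'
    intro κ
    by_cases hz0 : (SU q 0 M (x j) (μ + ((i p).1 : ℕ)) ((i p).2 : ℕ)).coeff (2 * κ) = 0
    · exact ⟨0, by rw [hz0]; simp⟩
    have hr := SU_coeff' (x j) ha hb hz0
    have hk1 : n ≤ 2 * κ + 1 := by omega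
    have hk2 : ((2 * κ + 1 : ℕ) : ℝ) ≤ (2 + ε) * n := by
      have h1 : 2 * κ + 1 ≤ 2 * n + 32 * μ ^ 2 + 12 * μ := by
        have h2 := hr.2
        omega
      have h2 : ((2 * κ + 1 : ℕ) : ℝ) ≤ 2 * n + 32 * μ ^ 2 + 12 * μ := by exact_mod_cast h1
      linarith
    by_cases hz : ∃ z : ℤ, (D : ℝ) * d (2 * κ + 1) * T (2 * κ + 1) = z
    · -- the coefficient is divisible by `d`
      have hkK : 2 * κ + 1 ∈ K := by
        rw [hK, Finset.mem_filter, Finset.mem_Icc]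
        refine ⟨⟨hk1, Nat.le_floor hk2⟩, ⟨κ, rfl⟩⟩
      have hdvd : (d (2 * κ + 1) : ℤ) ∣ (SU q 0 M (x j) (μ + ((i p).1 : ℕ)) ((i p).2 : ℕ)).coeff (2 * κ) := by
        apply SU_dvd (x j) ha hb
        intro j' h1 h2
        have h3 := hxd j (⟨⟨2 * κ + 1, hkK⟩, ⟨j' - (2 * κ + 1 - 1 - 2 * m), by omega⟩⟩ : K × Fin (8 * μ))
        rw [coI_mulVec] at h3
        have h4 : idx (⟨⟨2 * κ + 1, hkK⟩, ⟨j' - (2 * κ + 1 - 1 - 2 * m), by omega⟩⟩ : K × Fin (8 * μ)) = j' := by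
          rw [hidx]
          simp only
          omega
        rw [h4] at h3
        exact h3
      obtain ⟨z, hz⟩ := hz
      obtain ⟨w, hw⟩ := hdvd
      refine ⟨w * z, ?_⟩
      rw [hw]
      push_cast
      rw [← hz]
      ring
    · exfalso
      obtain ⟨i', hi1, hi2⟩ := hcov (2 * κ + 1) hk1 hk2 ⟨κ, rfl⟩ hz
      apply hz0
      apply SU_vanish (x j) ha hb
      intro j' h1 h2
      apply hvan
      rw [hE, Finset.mem_biUnion]
      refine ⟨i', Finset.mem_univ _, ?_⟩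
      rw [Finset.mem_Icc]
      omega
  choose z hz using hint
  have hD0 : (0 : ℝ) < D := by exact_mod_cast hD1
  have hlow : 1 ≤ (D : ℝ) ^ (μ ^ 2) * |G.det| := by
    have h1 : ((D : ℝ) • G).det = (Matrix.of z).det := by
      have h2 : ((D : ℝ) • G) = (Matrix.of z).map (Int.cast : ℤ → ℝ) := by
        ext p j
        rw [Matrix.smul_apply, smul_eq_mul, hz]
        rfl
      rw [h2]
      exact (Int.cast_det (R := ℝ) (Matrix.of z)).symm
    rw [Matrix.det_smul, Fintype.card_fin] at h1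
    have h3 : (Matrix.of z).det ≠ 0 := by
      intro h0
      rw [h0, Int.cast_zero] at h1
      rcases mul_eq_zero.mp h1 with h | h
      · exact (pow_pos hD0 _).ne' h
      · exact hGdet h
    have h4 : (1 : ℝ) ≤ |(((Matrix.of z).det : ℤ) : ℝ)| := by
      have : (1 : ℤ) ≤ |(Matrix.of z).det| := Int.one_le_abs h3
      exact_mod_cast this
    rw [← h1, abs_mul, abs_of_pos (pow_pos hD0 _)] at h4
    exact h4
  -- smallness
  choose Γ hΓ1 hΓ2 using fun p => int_expand (a := μ + ((i p).1 : ℕ)) (b := ((i p).2 : ℕ)) (μ := μ) (by omega)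
    (Nat.le_add_right _ _)
  have hμ0 : (0 : ℝ) < μ := by
    have : 0 < μ := by omega
    exact_mod_cast this
  have hup := det_bound Γ (fun k j => ∫ y in (-1 : ℝ)..1, at1 (RU q 0 M (x j)) y * y ^ k) G
    (C := (2 * m).factorial * 4 ^ m) (N := 2 * M * H) (s := 2 / μ) (by positivity) (by positivity) (by positivity)
    (by
      rw [div_le_one hμ0]
      have : 2 ≤ μ := by omega
      exact_mod_cast this)
    (by
      intro p k
      refine (hΓ1 p k).trans ?_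
      have ha : μ + ((i p).1 : ℕ) ≤ m := by have := (i p).1.2; omega
      have h1 : ((2 * (μ + ((i p).1 : ℕ))).factorial : ℝ) ≤ ((2 * m).factorial : ℝ) := by
        exact_mod_cast Nat.factorial_le (by omega)
      have h2 : (4 : ℝ) ^ (μ + ((i p).1 : ℕ)) ≤ 4 ^ m := pow_le_pow_right₀ (by norm_num) ha
      have h3 : (2 / (μ : ℝ) / 2) = 1 / μ := by
        field_simp
      rw [h3]
      gcongr)
    (fun k j => mom_bound (x j) hH0 (hxH j) k)
    (by
      intro p j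
      rw [hG1]
      exact hΓ2 p _ (at1_cont q M (x j)))
  have hnum := hfin D hD
  -- combine
  have hcomb : (D : ℝ) ^ (μ ^ 2) * |G.det| < 1 :=
    combine_lem (D := D) (K := 2 * ((2 * m).factorial * 4 ^ m) * (2 * M * H)) (x := 2 / (μ : ℝ)) (by positivity)
      (by positivity) (by positivity) (by positivity) hup (by push_cast at hnum ⊢; exact hnum)
  linarith

end Pool.Agent.LibFD50
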