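import Mathlib
import Pool.Agent.LibFD50.F10

/-! Row F11. Counting corollary: many odd `k` with a large individual denominator. -/

set_option autoImplicit false

namespace Pool.Agent.LibFD50

open Pool.Agent.LibOT77 Pool.Agent.LibCN21 Polynomial MeasureTheory Filter Topology

theorem indiv_count (ε : ℝ) (hε : 0 < ε) : ∃ a : ℝ, 0 < a ∧ ∃ N₀ : ℕ, ∀ n : ℕ, N₀ ≤ n →
    ∃ S : Finset ℕ, Real.sqrt (ε * n) / 400 < S.card ∧ ∀ k ∈ S, n ≤ k ∧ (k : ℝ) ≤ (2 + ε) * n ∧ Odd k ∧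
      ∀ b : ℕ, 1 ≤ b → (b : ℝ) ≤ (n : ℝ) ^ (a * Real.sqrt n) → ¬ ∃ z : ℤ, (b : ℝ) * T k = z := by
  obtain ⟨N₀, hN₀⟩ := main_indiv ε hε
  refine ⟨ε * Real.sqrt ε / (50000 * (2 + ε)), by positivity, max N₀ 1, fun n hn => ?_⟩
  have hn1 : 1 ≤ n := (le_max_right _ _).trans hn
  have hnR : (1 : ℝ) ≤ n := by exact_mod_cast hn1
  set a : ℝ := ε * Real.sqrt ε / (50000 * (2 + ε)) with ha
  classical
  set K : Finset ℕ := (Finset.Icc n ⌊(2 + ε) * n⌋₊).filter Odd with hK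
  set S : Finset ℕ := K.filter (fun k => ∀ b : ℕ, 1 ≤ b → (b : ℝ) ≤ (n : ℝ) ^ (a * Real.sqrt n) →
    ¬ ∃ z : ℤ, (b : ℝ) * T k = z) with hS
  refine ⟨S, ?_, ?_⟩
  · by_contra hcon
    push Not at hcon
    have hex : ∀ k : ℕ, ∃ b : ℕ, 1 ≤ b ∧ (b : ℝ) ≤ (n : ℝ) ^ (a * Real.sqrt n) ∧
        (k ∈ K → k ∉ S → ∃ z : ℤ, (b : ℝ) * T k = z) := by
      intro k
      by_cases h1 : k ∈ K ∧ k ∉ S
      · obtain ⟨hkK, hkS⟩ := h1
        rw [hS, Finset.mem_filter] at hkS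
        push Not at hkS
        obtain ⟨b, hb1, hb2, hb3⟩ := hkS hkK
        exact ⟨b, hb1, hb2, fun _ _ => hb3⟩
      · refine ⟨1, le_refl _, ?_, fun h2 h3 => absurd ⟨h2, h3⟩ h1⟩
        rw [Nat.cast_one]
        exact Real.one_le_rpow hnR (by positivity)
    choose d hd1 hd2 hd3 using hex
    have hKc : (K.card : ℝ) ≤ (2 + ε) * n := by
      have h1 : K.card ≤ ⌊(2 + ε) * n⌋₊ := by
        refine (Finset.card_filter_le _ _).trans ?_
        rw [Nat.card_Icc]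
        omega
      calc (K.card : ℝ) ≤ ⌊(2 + ε) * n⌋₊ := by exact_mod_cast h1
        _ ≤ _ := Nat.floor_le (by positivity)
    have hprod : ∏ k ∈ K, (d k : ℝ) ≤ (n : ℝ) ^ (ε * n * Real.sqrt (ε * n) / 50000) := by
      calc ∏ k ∈ K, (d k : ℝ) ≤ ∏ _k ∈ K, (n : ℝ) ^ (a * Real.sqrt n) :=
            Finset.prod_le_prod (fun k _ => Nat.cast_nonneg _) (fun k _ => hd2 k)
        _ = (n : ℝ) ^ (a * Real.sqrt n * K.card) := by
            rw [Finset.prod_const, ← Real.rpow_natCast, ← Real.rpow_mul (by linarith)]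
        _ ≤ _ := by
            apply Real.rpow_le_rpow_of_exponent_le hnR
            have h2 : Real.sqrt (ε * n) = Real.sqrt ε * Real.sqrt n := Real.sqrt_mul hε.le _
            rw [h2, ha]
            have h3 : 0 ≤ ε * Real.sqrt ε / (50000 * (2 + ε)) * Real.sqrt n := by positivity
            calc ε * Real.sqrt ε / (50000 * (2 + ε)) * Real.sqrt n * K.card
                ≤ ε * Real.sqrt ε / (50000 * (2 + ε)) * Real.sqrt n * ((2 + ε) * n) :=
                  mul_le_mul_of_nonneg_left hKc h3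
              _ = _ := by
                field_simp
    obtain ⟨k, hk1, hk2, hk3, hk4, hk5⟩ := hN₀ n ((le_max_left _ _).trans hn) 1 le_rfl (by
        rw [Nat.cast_one]
        exact Real.one_le_rpow hnR (by positivity)) d hd1 hprod S.card (fun i => (S.equivFin.symm i : ℕ)) (fun _ => 0) (by
      simp only [Nat.cast_zero, zero_add, Finset.sum_const, Finset.card_univ, Fintype.card_fin, nsmul_eq_mul]
      have h3 : Real.sqrt (ε * n) * Real.sqrt (ε * n) = ε * n := Real.mul_self_sqrt (by positivity)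
      have h4 := mul_le_mul_of_nonneg_right hcon (Real.sqrt_nonneg (ε * n))
      calc (S.card : ℝ) * Real.sqrt (ε * n) ≤ Real.sqrt (ε * n) / 400 * Real.sqrt (ε * n) := h4
        _ = ε * n / 400 := by rw [div_mul_eq_mul_div, h3])
    have hkK : k ∈ K := by
      rw [hK, Finset.mem_filter, Finset.mem_Icc]
      exact ⟨⟨hk1, Nat.le_floor hk2⟩, hk3⟩
    have hkS : k ∉ S := by
      intro h
      apply hk4 (S.equivFin ⟨k, h⟩)
      simp
    apply hk5
    obtain ⟨z, hz⟩ := hd3 k hkK hkS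
    exact ⟨z, by rw [Nat.cast_one, one_mul]; exact hz⟩
  · intro k hk
    rw [hS, Finset.mem_filter, hK, Finset.mem_filter, Finset.mem_Icc] at hk
    refine ⟨hk.1.1.1, ?_, hk.1.2, hk.2⟩
    calc (k : ℝ) ≤ ⌊(2 + ε) * n⌋₊ := by exact_mod_cast hk.1.1.2
      _ ≤ _ := Nat.floor_le (by positivity)

end Pool.Agent.LibFD50
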